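import Pool.Agent.Tal.Lower

/-!
# The lower bound: a level is crossed at some time in a short window
-/

set_option autoImplicit false

namespace Pool.Agent.Tal

open Finset

/-- for every level there are a cube and a subcube whose smoothed indicator is large often -/
theorem lower_PM {ρ : ℝ} (h0 : 0 < ρ) (h1 : ρ < 1) : ∃ c : ℝ, 0 < c ∧ ∀ α : ℝ, 2 ≤ α →
    ∃ n : ℕ, 1 ≤ n ∧ ∃ k : ℕ,
      c / (α * Real.sqrt (Real.log α)) * 2 ^ n ≤
        ((univ.filter (fun y : Fin n → Bool => α < PM ρ k y)).card : ℝ) := by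
  have hl := ell_pos h0 h1
  have hh0 := hh_pos h0 h1
  obtain ⟨R, hR⟩ : ∃ R : ℝ, R = ell ρ := ⟨_, rfl⟩
  obtain ⟨h, hh'⟩ : ∃ h : ℝ, h = hh ρ := ⟨_, rfl⟩
  rw [← hR] at hl
  rw [← hh'] at hh0
  obtain ⟨B, hB⟩ : ∃ B : ℝ, B = 1 + 9 * R ^ 2 * (3 / h + 2) := ⟨_, rfl⟩
  have hB1 : 1 ≤ B := by
    rw [hB]
    have : 0 ≤ 9 * R ^ 2 * (3 / h + 2) := by positivity
    linarith
  have hB2 : 9 * R ^ 2 * ((1 + 2 * B) / h + 2) ≤ B ^ 2 := by
    have e1 : (1 + 2 * B) / h + 2 ≤ B * (3 / h + 2) := by
      have : (1 + 2 * B) / h ≤ 3 * B / h := by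
        refine div_le_div_of_nonneg_right ?_ hh0.le
        linarith
      calc (1 + 2 * B) / h + 2 ≤ 3 * B / h + 2 * B := by linarith
        _ = B * (3 / h + 2) := by ring
    have e2 : 9 * R ^ 2 * ((1 + 2 * B) / h + 2) ≤ 9 * R ^ 2 * (B * (3 / h + 2)) :=
      mul_le_mul_of_nonneg_left e1 (by positivity)
    have e3 : 9 * R ^ 2 * (B * (3 / h + 2)) = B * (B - 1) := by
      have : 9 * R ^ 2 * (3 / h + 2) = B - 1 := by rw [hB]; ring
      rw [← this]; ring
    nlinarith
  obtain ⟨D, hD⟩ : ∃ D : ℝ, D = 2 * B / h + 4 := ⟨_, rfl⟩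
  have hD0 : 0 < D := by rw [hD]; positivity
  refine ⟨1 / (8 * D), by positivity, fun α hα => ?_⟩
  obtain ⟨l, hl'⟩ : ∃ l : ℝ, l = Real.log α := ⟨_, rfl⟩
  have hα0 : 0 < α := by linarith
  have hl2 : 1 / 2 ≤ l := by
    rw [hl']
    have a1 := Real.log_two_gt_d9
    have a2 := Real.log_le_log (by norm_num : (0 : ℝ) < 2) hα
    linarith
  have hl0 : 0 < l := by linarith
  obtain ⟨r, hr⟩ : ∃ r : ℝ, r = Real.sqrt l := ⟨_, rfl⟩
  have hr2 : r * r = l := by rw [hr]; exact Real.mul_self_sqrt hl0.le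
  have hr0 : 0 < r := by rw [hr]; exact Real.sqrt_pos.2 hl0
  have hr3 : 1 / 2 ≤ r := by nlinarith
  have hr4 : r ≤ 2 * l := by nlinarith
  obtain ⟨N, hN⟩ : ∃ N : ℕ, N = ⌈(l + B * r) / h⌉₊ := ⟨_, rfl⟩
  obtain ⟨N0, hN0⟩ : ∃ N0 : ℕ, N0 = ⌊(l - B * r) / h⌋₊ := ⟨_, rfl⟩
  have hNlow : (l + B * r) / h ≤ N := by rw [hN]; exact Nat.le_ceil _
  have hNpos : 0 < (l + B * r) / h := by positivity
  have hNup : (N : ℝ) < (l + B * r) / h + 1 := by rw [hN]; exact Nat.ceil_lt_add_one hNpos.le
  have hNR : (0 : ℝ) < N := lt_of_lt_of_le hNpos hNlow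
  have hN1 : 1 ≤ N := by exact_mod_cast hNR
  have hN0low : (l - B * r) / h - 1 < N0 := by rw [hN0]; exact Nat.sub_one_lt_floor _
  have hN0N : N0 ≤ N := by
    rw [hN, hN0]
    refine (Nat.floor_le_ceil _).trans (Nat.ceil_le_ceil ?_)
    refine div_le_div_of_nonneg_right ?_ hh0.le
    have : 0 ≤ B * r := by positivity
    linarith
  -- the width of the window
  have hwin : (N : ℝ) - N0 ≤ D * r := by
    have e1 : (l + B * r) / h - (l - B * r) / h = 2 * B / h * r := by ring
    rw [hD]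
    nlinarith
  -- fluctuations
  obtain ⟨q, hq⟩ : ∃ q : ℝ, q = Real.sqrt N := ⟨_, rfl⟩
  have hq2 : q * q = N := by rw [hq]; exact Real.mul_self_sqrt hNR.le
  have hq0 : 0 < q := by rw [hq]; exact Real.sqrt_pos.2 hNR
  have hfl : 3 * R * q ≤ B * r := by
    have e1 : (3 * R * q) ^ 2 ≤ (B * r) ^ 2 := by
      have e2 : (3 * R * q) ^ 2 = 9 * R ^ 2 * N := by rw [← hq2]; ring
      have e3 : (B * r) ^ 2 = B ^ 2 * l := by rw [← hr2]; ring
      rw [e2, e3]
      have e4 : (N : ℝ) ≤ ((1 + 2 * B) / h + 2) * l := by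
        have : (l + B * r) / h ≤ (l + B * (2 * l)) / h := by
          refine div_le_div_of_nonneg_right ?_ hh0.le
          have : B * r ≤ B * (2 * l) := mul_le_mul_of_nonneg_left hr4 (by linarith)
          linarith
        have e5 : ((1 + 2 * B) / h + 2) * l = (l + B * (2 * l)) / h + 2 * l := by ring
        rw [e5]
        linarith
      calc 9 * R ^ 2 * N ≤ 9 * R ^ 2 * (((1 + 2 * B) / h + 2) * l) :=
            mul_le_mul_of_nonneg_left e4 (by positivity)
        _ = 9 * R ^ 2 * ((1 + 2 * B) / h + 2) * l := by ring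
        _ ≤ B ^ 2 * l := mul_le_mul_of_nonneg_right hB2 hl0.le
    exact le_of_sq_le_sq e1 (by positivity)
  have hNh : l + 3 * R * q ≤ N * h := by
    rw [div_le_iff₀ hh0] at hNlow
    linarith
  have hpos2 : (0 : ℝ) < 2 ^ N := by positivity
  have hMG := PM_MG (n := N) h0 h1
  obtain ⟨s, hs⟩ : ∃ s : ℝ, s = 1 / (R * q) := ⟨_, rfl⟩
  have hs0 : 0 < s := by rw [hs]; positivity
  have hsR : s * (R * q) = 1 := by rw [hs]; field_simp
  have hq1 : 1 ≤ q := by
    have : (1 : ℝ) ≤ N := by exact_mod_cast hN1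
    nlinarith
  have hsl : s * R ≤ 1 := by
    have : 0 < s * R := by positivity
    nlinarith
  have hs2 : s ^ 2 * R ^ 2 * N = 1 := by
    rw [← hq2]
    have : s ^ 2 * R ^ 2 * (q * q) = (s * (R * q)) ^ 2 := by ring
    rw [this, hsR]; norm_num
  have hexp2 : Real.exp (-2) ≤ 1 / 4 := by
    have a1 := Real.exp_one_gt_d9
    have a2 : Real.exp (-2) * (Real.exp 1 * Real.exp 1) = 1 := by
      rw [← Real.exp_add, ← Real.exp_add]; norm_num
    have a3 := Real.exp_pos (-2)
    have a4 : 4 ≤ Real.exp 1 * Real.exp 1 := by nlinarith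
    nlinarith
  have hexp2' : 4 ≤ Real.exp 2 := by
    have a1 := Real.exp_one_gt_d9
    have a2 : Real.exp 2 = Real.exp 1 * Real.exp 1 := by
      rw [← Real.exp_add]; norm_num
    rw [a2]; nlinarith
  -- upper tail at time N0
  have T1 : ∑ y : Fin N → Bool, PM ρ N y * (if α < PM ρ N0 y then (1 : ℝ) else 0) ≤ 1 / 4 * 2 ^ N := by
    by_cases hcase : (0 : ℝ) ≤ (l - B * r) / h
    · have hN0up : (N0 : ℝ) ≤ (l - B * r) / h := by rw [hN0]; exact Nat.floor_le hcase
      rw [le_div_iff₀ hh0] at hN0up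
      have hx := expPM (n := N) h0 h1 (s := s) (by rw [← hR, abs_of_pos hs0]; exact hsl) hN0N
      have hle : ∀ y : Fin N → Bool, PM ρ N y * (if α < PM ρ N0 y then (1 : ℝ) else 0)
          ≤ 1 / 4 * (PM ρ N y * Real.exp (s * (Real.log (PM ρ N0 y) - N0 * hh ρ)
              - s ^ 2 * ell ρ ^ 2 * N0)) := by
        intro y
        have hPN := hMG.pos N y
        rw [← hR, ← hh']
        split_ifs with hy
        · have b1 : l < Real.log (PM ρ N0 y) := by
            rw [hl']; exact Real.log_lt_log hα0 hy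
          have b2 : 2 ≤ s * (Real.log (PM ρ N0 y) - N0 * h) - s ^ 2 * R ^ 2 * N0 := by
            have b3 : s ^ 2 * R ^ 2 * N0 ≤ s ^ 2 * R ^ 2 * N := by
              refine mul_le_mul_of_nonneg_left ?_ (by positivity)
              exact_mod_cast hN0N
            have b4 : 3 * R * q ≤ Real.log (PM ρ N0 y) - N0 * h := by linarith
            have b5 := mul_le_mul_of_nonneg_left b4 hs0.le
            have b6 : s * (3 * R * q) = 3 := by
              have : s * (3 * R * q) = 3 * (s * (R * q)) := by ring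
              rw [this, hsR]; norm_num
            linarith
          have b7 : 4 ≤ Real.exp (s * (Real.log (PM ρ N0 y) - N0 * h) - s ^ 2 * R ^ 2 * N0) :=
            hexp2'.trans (Real.exp_le_exp.2 b2)
          have b8 := mul_le_mul_of_nonneg_left b7 hPN.le
          linarith
        · have := Real.exp_pos (s * (Real.log (PM ρ N0 y) - N0 * h) - s ^ 2 * R ^ 2 * N0)
          rw [mul_zero]
          positivity
      refine (sum_le_sum fun y _ => hle y).trans ?_
      rw [← mul_sum]
      linarith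
    · have hN00 : N0 = 0 := by
        rw [hN0]
        push Not at hcase
        exact Nat.floor_of_nonpos hcase.le
      have : ∀ y : Fin N → Bool, ¬ (α < PM ρ N0 y) := by
        intro y
        rw [hN00, hMG.zero]
        linarith
      simp only [this, if_false, mul_zero, sum_const_zero]
      positivity
  -- lower tail at time N
  have T2 : ∑ y : Fin N → Bool, PM ρ N y * (if PM ρ N y ≤ α then (1 : ℝ) else 0) ≤ 1 / 4 * 2 ^ N := by
    have hx := expPM (n := N) h0 h1 (s := -s) (by rw [← hR, abs_neg, abs_of_pos hs0]; exact hsl)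
      (le_refl N)
    have hle : ∀ y : Fin N → Bool, PM ρ N y * (if PM ρ N y ≤ α then (1 : ℝ) else 0)
          ≤ 1 / 4 * (PM ρ N y * Real.exp (-s * (Real.log (PM ρ N y) - N * hh ρ)
              - (-s) ^ 2 * ell ρ ^ 2 * N)) := by
      intro y
      have hPN := hMG.pos N y
      rw [← hR, ← hh', neg_sq]
      split_ifs with hy
      · have b1 : Real.log (PM ρ N y) ≤ l := by
          rw [hl']; exact Real.log_le_log hPN hy
        have b2 : 2 ≤ -s * (Real.log (PM ρ N y) - N * h) - s ^ 2 * R ^ 2 * N := by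
          have b4 : 3 * R * q ≤ N * h - Real.log (PM ρ N y) := by linarith
          have b5 := mul_le_mul_of_nonneg_left b4 hs0.le
          have b6 : s * (3 * R * q) = 3 := by
            have : s * (3 * R * q) = 3 * (s * (R * q)) := by ring
            rw [this, hsR]; norm_num
          linarith
        have b7 : 4 ≤ Real.exp (-s * (Real.log (PM ρ N y) - N * h) - s ^ 2 * R ^ 2 * N) :=
          hexp2'.trans (Real.exp_le_exp.2 b2)
        have b8 := mul_le_mul_of_nonneg_left b7 hPN.le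
        linarith
      · have := Real.exp_pos (-s * (Real.log (PM ρ N y) - N * h) - s ^ 2 * R ^ 2 * N)
        rw [mul_zero]
        positivity
    refine (sum_le_sum fun y _ => hle y).trans ?_
    rw [← mul_sum]
    linarith
  -- total mass
  have T0 : ∑ y : Fin N → Bool, PM ρ N y = 2 ^ N := by
    have := MG_proj hMG (fun _ => (1 : ℝ)) 0 (Nat.zero_le _) (fun _ _ _ => rfl)
    simp only [mul_one, hMG.zero] at this
    rw [this]
    simp
  by_contra hcon
  push Not at hcon
  have hcon' : ∀ k : ℕ, ((univ.filter (fun y : Fin N → Bool => α < PM ρ k y)).card : ℝ) <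
      1 / (8 * D) / (α * Real.sqrt (Real.log α)) * 2 ^ N := fun k => hcon N hN1 k
  rw [← hl', ← hr] at hcon'
  -- crossing events
  have T3 : ∀ j : ℕ, j < N → ∑ y : Fin N → Bool,
      PM ρ N y * (if PM ρ j y ≤ α ∧ α < PM ρ (j + 1) y then (1 : ℝ) else 0)
      ≤ 2 * α * (1 / (8 * D) / (α * r) * 2 ^ N) := by
    intro j hj
    rw [MG_proj hMG _ (j + 1) hj ?_]
    · calc ∑ y : Fin N → Bool,
          PM ρ (j + 1) y * (if PM ρ j y ≤ α ∧ α < PM ρ (j + 1) y then (1 : ℝ) else 0)
          ≤ ∑ y : Fin N → Bool, (if α < PM ρ (j + 1) y then 2 * α else 0) := by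
            refine sum_le_sum fun y _ => ?_
            by_cases h5 : PM ρ j y ≤ α ∧ α < PM ρ (j + 1) y
            · rw [if_pos h5, if_pos h5.2, mul_one]
              have h6 := PM_succ ρ (⟨j, hj⟩ : Fin N) y
              have h7 := ff_le h0 (y ⟨j, hj⟩)
              have h8 := hMG.pos j y
              have h9 : PM ρ (j + 1) y = ff ρ (y ⟨j, hj⟩) * PM ρ j y := h6
              rw [h9]
              have h10 := h5.1
              nlinarith
            · rw [if_neg h5, mul_zero]
              split_ifs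
              · positivity
              · exact le_rfl
        _ = 2 * α * ((univ.filter (fun y : Fin N → Bool => α < PM ρ (j + 1) y)).card : ℝ) := by
            rw [← sum_filter, sum_const, nsmul_eq_mul]
            ring
        _ ≤ _ := mul_le_mul_of_nonneg_left (hcon' (j + 1)).le (by positivity)
    · intro i y hi
      rw [PM_inv ρ j i y (by omega), PM_inv ρ (j + 1) i y hi]
  have T4 : ∀ y : Fin N → Bool, 1 ≤ (if α < PM ρ N0 y then (1 : ℝ) else 0)
      + (if PM ρ N y ≤ α then (1 : ℝ) else 0)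
      + ∑ j ∈ Finset.Ico N0 N, (if PM ρ j y ≤ α ∧ α < PM ρ (j + 1) y then (1 : ℝ) else 0) := by
    intro y
    have hnn : 0 ≤ ∑ j ∈ Finset.Ico N0 N,
        (if PM ρ j y ≤ α ∧ α < PM ρ (j + 1) y then (1 : ℝ) else 0) := by
      refine sum_nonneg fun j _ => ?_
      split_ifs <;> norm_num
    by_cases c1 : α < PM ρ N0 y
    · rw [if_pos c1]
      split_ifs <;> linarith
    · rw [if_neg c1]
      by_cases c2 : PM ρ N y ≤ α
      · rw [if_pos c2]; linarith
      · rw [if_neg c2]
        push Not at c1 c2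
        have key : ∀ m, N0 ≤ m → m ≤ N → (∀ j ∈ Finset.Ico N0 m, ¬ (PM ρ j y ≤ α ∧ α < PM ρ (j + 1) y)) →
            PM ρ m y ≤ α := by
          intro m hm
          induction m, hm using Nat.le_induction with
          | base => intro _ _; exact c1
          | succ m hm ih =>
            intro hmN hj
            have d1 := ih (by omega) (fun j hj' => hj j (by
              rw [Finset.mem_Ico] at hj' ⊢; omega))
            have d2 := hj m (by rw [Finset.mem_Ico]; omega)
            by_contra d3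
            push Not at d3
            exact d2 ⟨d1, d3⟩
        by_contra hlt
        push Not at hlt
        have d4 := key N hN0N le_rfl (fun j hj hjj => by
          have d5 : (1 : ℝ) ≤ ∑ j ∈ Finset.Ico N0 N,
              (if PM ρ j y ≤ α ∧ α < PM ρ (j + 1) y then (1 : ℝ) else 0) := by
            have := single_le_sum (s := Finset.Ico N0 N)
              (f := fun j => if PM ρ j y ≤ α ∧ α < PM ρ (j + 1) y then (1 : ℝ) else 0)
              (fun j _ => by split_ifs <;> norm_num) hj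
            simp only [if_pos hjj] at this
            exact this
          linarith)
        linarith
  have T5 : (2 : ℝ) ^ N ≤ 1 / 4 * 2 ^ N + 1 / 4 * 2 ^ N
      + ((N : ℝ) - N0) * (2 * α * (1 / (8 * D) / (α * r) * 2 ^ N)) := by
    calc (2 : ℝ) ^ N = ∑ y : Fin N → Bool, PM ρ N y * 1 := by simp only [mul_one]; exact T0.symm
      _ ≤ ∑ y : Fin N → Bool, PM ρ N y * ((if α < PM ρ N0 y then (1 : ℝ) else 0)
          + (if PM ρ N y ≤ α then (1 : ℝ) else 0)
          + ∑ j ∈ Finset.Ico N0 N, (if PM ρ j y ≤ α ∧ α < PM ρ (j + 1) y then (1 : ℝ) else 0)) :=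
          sum_le_sum fun y _ => mul_le_mul_of_nonneg_left (T4 y) (hMG.pos N y).le
      _ = ∑ y : Fin N → Bool, PM ρ N y * (if α < PM ρ N0 y then (1 : ℝ) else 0)
          + ∑ y : Fin N → Bool, PM ρ N y * (if PM ρ N y ≤ α then (1 : ℝ) else 0)
          + ∑ j ∈ Finset.Ico N0 N, ∑ y : Fin N → Bool,
            PM ρ N y * (if PM ρ j y ≤ α ∧ α < PM ρ (j + 1) y then (1 : ℝ) else 0) := by
          rw [sum_comm, ← sum_add_distrib, ← sum_add_distrib]
          refine sum_congr rfl fun y _ => ?_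
          rw [mul_add, mul_add, mul_sum]
      _ ≤ 1 / 4 * 2 ^ N + 1 / 4 * 2 ^ N
          + ∑ j ∈ Finset.Ico N0 N, (2 * α * (1 / (8 * D) / (α * r) * 2 ^ N)) := by
          refine add_le_add (add_le_add T1 T2) (sum_le_sum fun j hj => ?_)
          rw [Finset.mem_Ico] at hj
          exact T3 j hj.2
      _ = _ := by
          rw [sum_const, Nat.card_Ico, nsmul_eq_mul, Nat.cast_sub hN0N]
  have T6 : 2 * α * (1 / (8 * D) / (α * r) * 2 ^ N) = 1 / (4 * D * r) * 2 ^ N := by
    field_simp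
    norm_num
  rw [T6] at T5
  have T7 : ((N : ℝ) - N0) * (1 / (4 * D * r) * 2 ^ N) ≤ 1 / 4 * 2 ^ N := by
    calc ((N : ℝ) - N0) * (1 / (4 * D * r) * 2 ^ N) ≤ (D * r) * (1 / (4 * D * r) * 2 ^ N) :=
          mul_le_mul_of_nonneg_right hwin (by positivity)
      _ = 1 / 4 * 2 ^ N := by field_simp
  linarith

end Pool.Agent.Tal
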