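import Pool.Agent.Tal.Main

/-!
# The upper bound for all nonnegative functions and all levels
-/

set_option autoImplicit false

namespace Pool.Agent.Tal

open Finset

variable {n : ℕ}

lemma sum_KK {ρ : ℝ} (z : Fin n → Bool) : ∑ y : Fin n → Bool, KK ρ y z = 1 := by
  have e3 := Finset.prod_univ_sum (fun _ : Fin n => (univ : Finset Bool))
    (fun (i : Fin n) (s : Bool) => kk ρ s (z i))
  rw [Fintype.piFinset_univ] at e3
  unfold KK
  rw [← e3]
  refine prod_eq_one fun i _ => ?_
  rw [Fintype.sum_bool]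
  unfold kk
  cases z i <;> simp <;> ring

lemma sum_gg {ρ : ℝ} (w : (Fin n → Bool) → ℝ) : ∑ y, gg ρ w y = ∑ z, w z := by
  unfold gg
  rw [sum_comm]
  refine sum_congr rfl fun z _ => ?_
  rw [← mul_sum, sum_KK, mul_one]

/-- the upper bound in terms of `ρ` -/
theorem upper {ρ : ℝ} (h0 : 0 < ρ) (h1 : ρ < 1) (f : (Fin n → Bool) → ℝ)
    (hf : ∀ x, 0 ≤ f x) (α : ℝ) (hα : 1 < α) :
    ((univ.filter (fun x : Fin n → Bool =>
      α * ((∑ y, f y) / 2 ^ n) < ∑ y, f y * KK ρ x y)).card : ℝ) / 2 ^ n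
      ≤ 402 / (1 - ρ) ^ 2 / (α * Real.sqrt (Real.log α)) := by
  have hN : (0 : ℝ) < 2 ^ n := by positivity
  have h1' : 0 < 1 - ρ := by linarith
  have hlog : 0 < Real.log α := Real.log_pos hα
  have hα0 : 0 < α := by linarith
  have hsq : 0 < Real.sqrt (Real.log α) := Real.sqrt_pos.2 hlog
  have hR : 0 ≤ 402 / (1 - ρ) ^ 2 / (α * Real.sqrt (Real.log α)) := by positivity
  rcases (sum_nonneg fun y _ => hf y : 0 ≤ ∑ y, f y).eq_or_lt with hz | hpos
  · have hf0 : ∀ y, f y = 0 := fun y =>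
      (sum_eq_zero_iff_of_nonneg fun y _ => hf y).1 hz.symm y (mem_univ y)
    have : (univ.filter (fun x : Fin n → Bool =>
      α * ((∑ y, f y) / 2 ^ n) < ∑ y, f y * KK ρ x y)) = ∅ := by
      refine filter_false_of_mem fun x _ => ?_
      simp [hf0]
    rw [this]
    simpa using hR
  · obtain ⟨m, hm⟩ : ∃ m : ℝ, m = (∑ y, f y) / 2 ^ n := ⟨_, rfl⟩
    have hm0 : 0 < m := by rw [hm]; positivity
    obtain ⟨w, hw⟩ : ∃ w : (Fin n → Bool) → ℝ, w = fun z => f z / m := ⟨_, rfl⟩
    have hw0 : ∀ z, 0 ≤ w z := fun z => by rw [hw]; exact div_nonneg (hf z) hm0.le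
    have hgw : ∀ x, gg ρ w x = (∑ y, f y * KK ρ x y) / m := by
      intro x
      unfold gg
      rw [hw, sum_div]
      exact sum_congr rfl fun z _ => by ring
    have hgpos : ∀ y, 0 < gg ρ w y := by
      intro y
      rw [hgw]
      refine div_pos ?_ hm0
      obtain ⟨z, _, hz⟩ := exists_lt_of_sum_lt (s := univ) (f := fun _ => (0 : ℝ)) (g := f)
        (by simpa using hpos)
      exact sum_pos' (fun u _ => mul_nonneg (hf u) (KK_pos h0 h1 y u).le)
        ⟨z, mem_univ _, mul_pos hz (KK_pos h0 h1 y z)⟩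
    have hsum : ∑ y, gg ρ w y = 2 ^ n := by
      rw [sum_gg, hw, ← sum_div, div_eq_iff hm0.ne', hm]
      field_simp
    have hset : (univ.filter (fun x : Fin n → Bool =>
      α * ((∑ y, f y) / 2 ^ n) < ∑ y, f y * KK ρ x y))
      = univ.filter (fun y => α < gg ρ w y) := by
      refine filter_congr fun x _ => ?_
      rw [hgw, ← hm, lt_div_iff₀ hm0]
    rw [hset]
    have hexp : Real.exp (Real.log α) = α := Real.exp_log hα0
    rcases le_or_gt 1 (Real.log α) with hL | hL
    · have h := main_bound h0 h1 w hw0 hgpos hsum hL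
      rw [hexp] at h
      rw [div_le_iff₀ hN]
      exact h
    · -- Markov
      have hmk : ((univ.filter (fun y => α < gg ρ w y)).card : ℝ) * α ≤ 2 ^ n := by
        rw [← hsum]
        calc ((univ.filter (fun y => α < gg ρ w y)).card : ℝ) * α
            = ∑ _y ∈ univ.filter (fun y => α < gg ρ w y), α := by rw [sum_const, nsmul_eq_mul]
          _ ≤ ∑ y ∈ univ.filter (fun y => α < gg ρ w y), gg ρ w y :=
              sum_le_sum fun y hy => (mem_filter.1 hy).2.le
          _ ≤ ∑ y, gg ρ w y :=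
              sum_le_sum_of_subset_of_nonneg (subset_univ _) (fun y _ _ => (hgpos y).le)
      have s1 : Real.sqrt (Real.log α) ≤ 1 := by
        exact Real.sqrt_le_one.2 hL.le
      have s2 : (1 - ρ) ^ 2 ≤ 1 := by nlinarith
      rw [div_div, div_le_div_iff₀ hN (by positivity)]
      have hc : (0 : ℝ) ≤ ((univ.filter (fun y => α < gg ρ w y)).card : ℝ) := Nat.cast_nonneg _
      set x := ((univ.filter (fun y => α < gg ρ w y)).card : ℝ)
      have s3 : (1 - ρ) ^ 2 * Real.sqrt (Real.log α) ≤ 1 := by nlinarith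
      calc x * ((1 - ρ) ^ 2 * (α * Real.sqrt (Real.log α)))
          = x * α * ((1 - ρ) ^ 2 * Real.sqrt (Real.log α)) := by ring
        _ ≤ x * α * 1 := mul_le_mul_of_nonneg_left s3 (by positivity)
        _ ≤ 402 * 2 ^ n := by linarith

end Pool.Agent.Tal
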