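import Mathlib

/-!
# Coordinate flips on the cube and an exponential supermartingale inequality

`fl i y` flips the coordinate `i` of `y`.  `MG n M` says that `M k` is a positive martingale for the
coordinate filtration of the uniform measure, started at one.
-/

set_option autoImplicit false

namespace Pool.Agent.Tal

open Finset

variable {n : ℕ}

/-- flip the coordinate `i` -/
def fl (i : Fin n) (y : Fin n → Bool) : Fin n → Bool := Function.update y i (!y i)

lemma fl_same (i : Fin n) (y : Fin n → Bool) : fl i y i = !y i := by simp [fl]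

lemma fl_ne {i j : Fin n} (h : j ≠ i) (y : Fin n → Bool) : fl i y j = y j := by simp [fl, h]

lemma fl_fl (i : Fin n) (y : Fin n → Bool) : fl i (fl i y) = y := by
  ext j
  by_cases h : j = i
  · subst h; simp [fl]
  · simp [fl_ne h]

/-- the flip as a permutation of the cube -/
def flE (i : Fin n) : (Fin n → Bool) ≃ (Fin n → Bool) := ⟨fl i, fl i, fl_fl i, fl_fl i⟩

lemma sum_fl (i : Fin n) (h : (Fin n → Bool) → ℝ) : ∑ y, h (fl i y) = ∑ y, h y :=
  Equiv.sum_comp (flE i) h

/-- coordinatewise exclusive or -/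
def xr (y S : Fin n → Bool) : Fin n → Bool := fun i => xor (y i) (S i)

lemma xr_xr (y S : Fin n → Bool) : xr (xr y S) S = y := by
  ext i; simp [xr]

/-- exclusive or with `S` as a permutation of the cube -/
def xrE (S : Fin n → Bool) : (Fin n → Bool) ≃ (Fin n → Bool) :=
  ⟨fun y => xr y S, fun y => xr y S, fun y => xr_xr y S, fun y => xr_xr y S⟩

lemma sum_xr (S : Fin n → Bool) (h : (Fin n → Bool) → ℝ) : ∑ y, h (xr y S) = ∑ y, h y :=
  Equiv.sum_comp (xrE S) h

lemma xr_fl (x S : Fin n → Bool) (j : Fin n) : xr x (fl j S) = fl j (xr x S) := by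
  ext i
  by_cases h : i = j
  · subst h
    simp [xr, fl_same]
  · simp [xr, fl_ne h]

/-- a positive martingale for the coordinate filtration, started at one -/
structure MG (n : ℕ) (M : ℕ → (Fin n → Bool) → ℝ) : Prop where
  pos : ∀ k y, 0 < M k y
  zero : ∀ y, M 0 y = 1
  inv : ∀ (k : ℕ) (i : Fin n) y, k ≤ i.val → M k (fl i y) = M k y
  avg : ∀ (k : Fin n) y, M (k.val + 1) y + M (k.val + 1) (fl k y) = 2 * M k.val y

lemma MG_one : MG n (fun _ _ => (1 : ℝ)) :=
  ⟨fun _ _ => one_pos, fun _ => rfl, fun _ _ _ _ => rfl, fun _ _ => by norm_num⟩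

lemma filter_lt_succ (k : ℕ) (hk : k < n) :
    (univ.filter (fun i : Fin n => i.val < k + 1)) =
      insert (⟨k, hk⟩ : Fin n) (univ.filter (fun i : Fin n => i.val < k)) := by
  ext i
  simp only [mem_filter, mem_univ, true_and, mem_insert, Fin.ext_iff]
  omega

lemma notMem_filter_lt (k : ℕ) (hk : k < n) :
    (⟨k, hk⟩ : Fin n) ∉ (univ.filter (fun i : Fin n => i.val < k)) := by
  simp

lemma filter_lt_self : (univ.filter (fun i : Fin n => i.val < n)) = univ := by
  ext i
  simp

/-- the supermartingale inequality -/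
theorem SM {M : ℕ → (Fin n → Bool) → ℝ} (hM : MG n M) (X : Fin n → (Fin n → Bool) → ℝ)
    (hX0 : ∀ i y, 0 ≤ X i y)
    (hXinv : ∀ (i j : Fin n) y, i < j → X i (fl j y) = X i y)
    (hX : ∀ (i : Fin n) y, M (i.val + 1) y * X i y + M (i.val + 1) (fl i y) * X i (fl i y)
      ≤ 2 * M i.val y) :
    ∑ y, M n y * ∏ i, X i y ≤ 2 ^ n := by
  have key : ∀ k, k ≤ n →
      ∑ y, M k y * ∏ i ∈ univ.filter (fun i : Fin n => i.val < k), X i y ≤ 2 ^ n := by
    intro k
    induction k with
    | zero =>
      intro _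
      simp [hM.zero]
    | succ k ih =>
      intro hk
      have hk' : k < n := hk
      have ih' := ih hk'.le
      refine le_trans ?_ ih'
      set P : (Fin n → Bool) → ℝ :=
        fun y => ∏ i ∈ univ.filter (fun i : Fin n => i.val < k), X i y with hP
      have hP0 : ∀ y, 0 ≤ P y := fun y => prod_nonneg fun i _ => hX0 i y
      have hPfl : ∀ y, P (fl ⟨k, hk'⟩ y) = P y := by
        intro y
        refine prod_congr rfl fun i hi => ?_
        refine hXinv i ⟨k, hk'⟩ y ?_
        simp only [mem_filter, mem_univ, true_and] at hi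
        exact hi
      have e1 : ∀ y, ∏ i ∈ univ.filter (fun i : Fin n => i.val < k + 1), X i y
          = P y * X ⟨k, hk'⟩ y := by
        intro y
        rw [filter_lt_succ k hk', prod_insert (notMem_filter_lt k hk'), mul_comm]
      have e2 : 2 * ∑ y, M (k + 1) y * (P y * X ⟨k, hk'⟩ y)
          ≤ 2 * ∑ y, M k y * P y := by
        have e3 : ∑ y, M (k + 1) y * (P y * X ⟨k, hk'⟩ y)
            = ∑ y, M (k + 1) (fl ⟨k, hk'⟩ y) * (P (fl ⟨k, hk'⟩ y) * X ⟨k, hk'⟩ (fl ⟨k, hk'⟩ y)) :=
          (sum_fl ⟨k, hk'⟩ (fun y => M (k + 1) y * (P y * X ⟨k, hk'⟩ y))).symm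
        calc 2 * ∑ y, M (k + 1) y * (P y * X ⟨k, hk'⟩ y)
            = ∑ y, M (k + 1) y * (P y * X ⟨k, hk'⟩ y)
              + ∑ y, M (k + 1) (fl ⟨k, hk'⟩ y) *
                (P (fl ⟨k, hk'⟩ y) * X ⟨k, hk'⟩ (fl ⟨k, hk'⟩ y)) := by
              rw [← e3]; ring
          _ = ∑ y, P y * (M (k + 1) y * X ⟨k, hk'⟩ y
              + M (k + 1) (fl ⟨k, hk'⟩ y) * X ⟨k, hk'⟩ (fl ⟨k, hk'⟩ y)) := by
              rw [← sum_add_distrib]
              refine sum_congr rfl fun y _ => ?_
              rw [hPfl]; ring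
          _ ≤ ∑ y, P y * (2 * M k y) :=
              sum_le_sum fun y _ => mul_le_mul_of_nonneg_left (hX ⟨k, hk'⟩ y) (hP0 y)
          _ = 2 * ∑ y, M k y * P y := by
              rw [mul_sum]
              exact sum_congr rfl fun y _ => by ring
      simp only [e1]
      linarith
  have h := key n le_rfl
  rwa [filter_lt_self] at h

/-- a product of conditional probabilities has total mass at most one -/
theorem sum_prod_cond (τ : Fin n → (Fin n → Bool) → ℝ) (h0 : ∀ i S, 0 ≤ τ i S)
    (hinv : ∀ (i j : Fin n) S, i < j → τ i (fl j S) = τ i S)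
    (h1 : ∀ i S, τ i S + τ i (fl i S) = 1) : ∑ S, ∏ i, τ i S ≤ 1 := by
  have h := SM (MG_one (n := n)) (fun i S => 2 * τ i S)
    (fun i S => by have := h0 i S; positivity)
    (fun i j S hij => by simp only [hinv i j S hij])
    (fun i S => by have := h1 i S; linarith)
  have e : ∀ S : Fin n → Bool, (1 : ℝ) * ∏ i, (2 * τ i S) = 2 ^ n * ∏ i, τ i S := by
    intro S
    rw [prod_mul_distrib]
    simp
  simp only [e] at h
  rw [← mul_sum] at h
  have h2 : (0 : ℝ) < 2 ^ n := by positivity
  nlinarith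

end Pool.Agent.Tal
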