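import Pool.Agent.Tal.Basic

/-!
# The noise kernel and the exponential inequality for selected flips
-/

set_option autoImplicit false

namespace Pool.Agent.Tal

open Finset

variable {n : ℕ}

/-- the one-bit noise kernel -/
noncomputable def kk (ρ : ℝ) (a b : Bool) : ℝ := if a = b then (1 + ρ) / 2 else (1 - ρ) / 2

/-- the likelihood ratio of a flipped bit -/
noncomputable def rr (ρ : ℝ) (a b : Bool) : ℝ := kk ρ (!a) b / kk ρ a b

/-- the noise kernel on the cube -/
noncomputable def KK (ρ : ℝ) (y z : Fin n → Bool) : ℝ := ∏ i, kk ρ (y i) (z i)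

/-- the maximal likelihood ratio -/
noncomputable def kap (ρ : ℝ) : ℝ := (1 + ρ) / (1 - ρ)

lemma kap_ge {ρ : ℝ} (h0 : 0 < ρ) (h1 : ρ < 1) : 1 ≤ kap ρ := by
  unfold kap
  rw [le_div_iff₀ (by linarith)]
  linarith

lemma kk_pos {ρ : ℝ} (h0 : 0 < ρ) (h1 : ρ < 1) (a b : Bool) : 0 < kk ρ a b := by
  unfold kk
  split_ifs <;> linarith

lemma rr_pos {ρ : ℝ} (h0 : 0 < ρ) (h1 : ρ < 1) (a b : Bool) : 0 < rr ρ a b :=
  div_pos (kk_pos h0 h1 _ _) (kk_pos h0 h1 _ _)

lemma rr_le {ρ : ℝ} (h0 : 0 < ρ) (h1 : ρ < 1) (a b : Bool) : rr ρ a b ≤ kap ρ := by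
  have h2 : 0 < 1 - ρ := by linarith
  have h3 : 0 < 1 + ρ := by linarith
  unfold rr kap kk
  cases a <;> cases b <;> simp
  · rw [div_div_div_cancel_right₀ (by norm_num), div_le_div_iff₀ h3 h2]
    nlinarith
  · rw [div_div_div_cancel_right₀ (by norm_num)]
  · rw [div_div_div_cancel_right₀ (by norm_num)]
  · rw [div_div_div_cancel_right₀ (by norm_num), div_le_div_iff₀ h3 h2]
    nlinarith

lemma kk_not {ρ : ℝ} (h0 : 0 < ρ) (h1 : ρ < 1) (a b : Bool) :
    kk ρ (!a) b = rr ρ a b * kk ρ a b := by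
  unfold rr
  rw [div_mul_cancel₀ _ (kk_pos h0 h1 a b).ne']

lemma KK_pos {ρ : ℝ} (h0 : 0 < ρ) (h1 : ρ < 1) (y z : Fin n → Bool) : 0 < KK ρ y z :=
  prod_pos fun _ _ => kk_pos h0 h1 _ _

lemma KK_fl {ρ : ℝ} (h0 : 0 < ρ) (h1 : ρ < 1) (i : Fin n) (y z : Fin n → Bool) :
    KK ρ (fl i y) z = rr ρ (y i) (z i) * KK ρ y z := by
  unfold KK
  rw [← mul_prod_erase univ (fun j => kk ρ (fl i y j) (z j)) (mem_univ i),
    ← mul_prod_erase univ (fun j => kk ρ (y j) (z j)) (mem_univ i), fl_same,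
    kk_not h0 h1, mul_assoc]
  congr 2
  refine prod_congr rfl fun j hj => ?_
  rw [fl_ne (ne_of_mem_erase hj)]

/-- the smoothed function -/
noncomputable def gg (ρ : ℝ) (w : (Fin n → Bool) → ℝ) (y : Fin n → Bool) : ℝ :=
  ∑ z, w z * KK ρ y z

lemma gg_fl {ρ : ℝ} (h0 : 0 < ρ) (h1 : ρ < 1) (w : (Fin n → Bool) → ℝ) (i : Fin n)
    (y : Fin n → Bool) : gg ρ w (fl i y) = ∑ z, w z * KK ρ y z * rr ρ (y i) (z i) := by
  unfold gg
  refine sum_congr rfl fun z _ => ?_
  rw [KK_fl h0 h1]; ring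

lemma gg_fl_le {ρ : ℝ} (h0 : 0 < ρ) (h1 : ρ < 1) (w : (Fin n → Bool) → ℝ) (hw : ∀ z, 0 ≤ w z)
    (i : Fin n) (y : Fin n → Bool) : gg ρ w (fl i y) ≤ kap ρ * gg ρ w y := by
  rw [gg_fl h0 h1]
  unfold gg
  rw [mul_sum]
  refine sum_le_sum fun z _ => ?_
  rw [mul_comm (kap ρ)]
  exact mul_le_mul_of_nonneg_left (rr_le h0 h1 _ _) (mul_nonneg (hw z) (KK_pos h0 h1 y z).le)

/-- elementary inequality -/
lemma exp_le_one_add {x : ℝ} (hx : -(1 / 2) ≤ x) : Real.exp (x - x ^ 2) ≤ 1 + x := by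
  rcases le_or_gt 0 x with h | h
  · have h1 : x - x ^ 2 ≤ Real.log (1 + x) := by
      refine le_trans ?_ (Real.le_log_one_add_of_nonneg h)
      rw [le_div_iff₀ (by linarith)]
      nlinarith [pow_nonneg h 2, pow_nonneg h 3]
    calc Real.exp (x - x ^ 2) ≤ Real.exp (Real.log (1 + x)) := Real.exp_le_exp.2 h1
      _ = 1 + x := Real.exp_log (by linarith)
  · obtain ⟨u, hu⟩ : ∃ u, u = -x := ⟨_, rfl⟩
    have hu0 : 0 < u := by linarith
    have hu1 : u ≤ 1 / 2 := by linarith
    have hx' : x = -u := by linarith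
    subst hx'
    have h2 : 1 + (u + u ^ 2) + (u + u ^ 2) ^ 2 / 2 ≤ Real.exp (u + u ^ 2) :=
      Real.quadratic_le_exp_of_nonneg (by positivity)
    have h3 : Real.exp (-u - (-u) ^ 2) = (Real.exp (u + u ^ 2))⁻¹ := by
      rw [← Real.exp_neg]; congr 1; ring
    rw [h3]
    have h4 : 1 ≤ (1 - u) * (1 + (u + u ^ 2) + (u + u ^ 2) ^ 2 / 2) := by
      have h5 : 0 ≤ 1 - u - u ^ 2 - u ^ 3 := by nlinarith [mul_nonneg hu0.le hu0.le, mul_nonneg (mul_nonneg hu0.le hu0.le) hu0.le, mul_nonneg hu0.le (sub_nonneg.2 hu1), mul_nonneg (mul_nonneg hu0.le hu0.le) (sub_nonneg.2 hu1)]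
      nlinarith [mul_nonneg (mul_nonneg hu0.le hu0.le) h5]
    have h6 : 1 ≤ (1 - u) * Real.exp (u + u ^ 2) :=
      h4.trans (mul_le_mul_of_nonneg_left h2 (by linarith))
    rw [inv_le_iff_one_le_mul₀ (Real.exp_pos _)]
    linarith

/-- step 1: Jensen's inequality for the selected flips -/
theorem step1 {ρ δ : ℝ} (h0 : 0 < ρ) (h1 : ρ < 1) (hδ0 : 0 ≤ δ) (hδ1 : δ ≤ 1 / 2)
    (w : (Fin n → Bool) → ℝ) (hw : ∀ z, 0 ≤ w z) (y : Fin n → Bool) (hg : 0 < gg ρ w y)
    (p q : Fin n → ℝ) (hp : ∀ i, 0 ≤ p i) (hq : ∀ i, 0 ≤ q i) (hpq : ∀ i, p i + q i ≤ 1) :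
    gg ρ w y * Real.exp (-δ * (∑ i, (p i - q i * (gg ρ w (fl i y) / gg ρ w y)))
        - kap ρ ^ 2 * δ ^ 2 * ∑ i, (p i + q i) ^ 2)
      ≤ ∑ S : Fin n → Bool, gg ρ w (xr y S) * ∏ i, (if S i then δ * q i else 1 - δ * p i) := by
  have hκ := kap_ge h0 h1
  -- the right side
  have e1 : ∑ S : Fin n → Bool, gg ρ w (xr y S) * ∏ i, (if S i then δ * q i else 1 - δ * p i)
      = ∑ z, w z * KK ρ y z * ∏ i, (1 + (-δ * p i + δ * q i * rr ρ (y i) (z i))) := by
    have e2 : ∀ z : Fin n → Bool,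
        KK ρ y z * ∏ i, (1 + (-δ * p i + δ * q i * rr ρ (y i) (z i)))
        = ∑ S : Fin n → Bool, ∏ i, (kk ρ (xor (y i) (S i)) (z i) *
            (if S i then δ * q i else 1 - δ * p i)) := by
      intro z
      have e3 := Finset.prod_univ_sum (fun _ : Fin n => (univ : Finset Bool))
        (fun (i : Fin n) (s : Bool) => kk ρ (xor (y i) s) (z i) *
          (if s then δ * q i else 1 - δ * p i))
      rw [Fintype.piFinset_univ] at e3
      rw [← e3]
      unfold KK
      rw [← prod_mul_distrib]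
      refine prod_congr rfl fun i _ => ?_
      rw [Fintype.sum_bool]
      simp only [Bool.xor_true, Bool.xor_false, if_true]
      rw [kk_not h0 h1]
      simp
      ring
    calc ∑ S : Fin n → Bool, gg ρ w (xr y S) * ∏ i, (if S i then δ * q i else 1 - δ * p i)
        = ∑ S : Fin n → Bool, ∑ z, w z * ∏ i, (kk ρ (xor (y i) (S i)) (z i) *
            (if S i then δ * q i else 1 - δ * p i)) := by
          refine sum_congr rfl fun S _ => ?_
          unfold gg
          rw [sum_mul]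
          refine sum_congr rfl fun z _ => ?_
          rw [prod_mul_distrib, mul_assoc]
          rfl
      _ = ∑ z, ∑ S : Fin n → Bool, w z * ∏ i, (kk ρ (xor (y i) (S i)) (z i) *
            (if S i then δ * q i else 1 - δ * p i)) := sum_comm
      _ = ∑ z, w z * KK ρ y z * ∏ i, (1 + (-δ * p i + δ * q i * rr ρ (y i) (z i))) := by
          refine sum_congr rfl fun z _ => ?_
          rw [mul_assoc, e2 z, mul_sum]
  rw [e1]
  set A : ℝ := kap ρ ^ 2 * δ ^ 2 * ∑ i, (p i + q i) ^ 2 with hA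
  set v : ℝ := -δ * (∑ i, (p i - q i * (gg ρ w (fl i y) / gg ρ w y))) - A with hv
  -- pointwise bound
  have e4 : ∀ z : Fin n → Bool,
      Real.exp v * (1 + (∑ i, (-δ * p i + δ * q i * rr ρ (y i) (z i)) - A - v))
      ≤ ∏ i, (1 + (-δ * p i + δ * q i * rr ρ (y i) (z i))) := by
    intro z
    have hx : ∀ i, Real.exp ((-δ * p i + δ * q i * rr ρ (y i) (z i))
        - (kap ρ ^ 2 * δ ^ 2 * (p i + q i) ^ 2))
        ≤ 1 + (-δ * p i + δ * q i * rr ρ (y i) (z i)) := by
      intro i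
      have hr0 := rr_pos h0 h1 (y i) (z i)
      have hr1 := rr_le h0 h1 (y i) (z i)
      have hpi := hp i
      have hqi := hq i
      have hpqi := hpq i
      set r := rr ρ (y i) (z i)
      have hx1 : -(1 / 2) ≤ -δ * p i + δ * q i * r := by
        have : δ * p i ≤ 1 / 2 := by nlinarith
        have : 0 ≤ δ * q i * r := by positivity
        linarith
      refine le_trans (Real.exp_le_exp.2 ?_) (exp_le_one_add hx1)
      have hx2 : (-δ * p i + δ * q i * r) ^ 2 ≤ kap ρ ^ 2 * δ ^ 2 * (p i + q i) ^ 2 := by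
        rw [← mul_pow, ← mul_pow]
        refine sq_le_sq' ?_ ?_
        · have a1 : δ * p i ≤ kap ρ * δ * p i := by
            have : 0 ≤ δ * p i := by positivity
            nlinarith
          have a2 : 0 ≤ kap ρ * δ * q i := by positivity
          have a3 : 0 ≤ δ * q i * r := by positivity
          nlinarith
        · have a1 : δ * q i * r ≤ δ * q i * kap ρ :=
            mul_le_mul_of_nonneg_left hr1 (by positivity)
          have a2 : 0 ≤ kap ρ * δ * p i := by positivity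
          have a3 : 0 ≤ δ * p i := by positivity
          nlinarith
      linarith
    have e5 : Real.exp (∑ i, (-δ * p i + δ * q i * rr ρ (y i) (z i)) - A)
        ≤ ∏ i, (1 + (-δ * p i + δ * q i * rr ρ (y i) (z i))) := by
      rw [hA, mul_sum, ← sum_sub_distrib, Real.exp_sum]
      exact prod_le_prod (fun i _ => (Real.exp_pos _).le) (fun i _ => hx i)
    refine le_trans ?_ e5
    have e6 : Real.exp (∑ i, (-δ * p i + δ * q i * rr ρ (y i) (z i)) - A)
        = Real.exp v * Real.exp (∑ i, (-δ * p i + δ * q i * rr ρ (y i) (z i)) - A - v) := by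
      rw [← Real.exp_add]; congr 1; ring
    rw [e6]
    refine mul_le_mul_of_nonneg_left ?_ (Real.exp_pos _).le
    have := Real.add_one_le_exp (∑ i, (-δ * p i + δ * q i * rr ρ (y i) (z i)) - A - v)
    linarith
  have e7 : ∑ z, w z * KK ρ y z *
      (Real.exp v * (1 + (∑ i, (-δ * p i + δ * q i * rr ρ (y i) (z i)) - A - v)))
      = gg ρ w y * Real.exp v := by
    have e8 : ∑ z, w z * KK ρ y z * (∑ i, (-δ * p i + δ * q i * rr ρ (y i) (z i)))
        = gg ρ w y * (v + A) := by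
      calc ∑ z, w z * KK ρ y z * (∑ i, (-δ * p i + δ * q i * rr ρ (y i) (z i)))
          = ∑ i, ∑ z, w z * KK ρ y z * (-δ * p i + δ * q i * rr ρ (y i) (z i)) := by
            simp only [mul_sum]
            exact sum_comm
        _ = ∑ i, (-δ * p i * gg ρ w y + δ * q i * gg ρ w (fl i y)) := by
            refine sum_congr rfl fun i _ => ?_
            rw [gg_fl h0 h1]
            unfold gg
            rw [mul_sum, mul_sum, ← sum_add_distrib]
            exact sum_congr rfl fun z _ => by ring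
        _ = gg ρ w y * (v + A) := by
            rw [hv]
            have : -δ * (∑ i, (p i - q i * (gg ρ w (fl i y) / gg ρ w y))) - A + A
                = ∑ i, (-δ * (p i - q i * (gg ρ w (fl i y) / gg ρ w y))) := by
              rw [mul_sum]; ring
            rw [this, mul_sum]
            refine sum_congr rfl fun i _ => ?_
            field_simp
            ring
    calc ∑ z, w z * KK ρ y z *
        (Real.exp v * (1 + (∑ i, (-δ * p i + δ * q i * rr ρ (y i) (z i)) - A - v)))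
        = Real.exp v * (∑ z, w z * KK ρ y z * (∑ i, (-δ * p i + δ * q i * rr ρ (y i) (z i)))
            + (1 - A - v) * ∑ z, w z * KK ρ y z) := by
          rw [mul_sum, ← sum_add_distrib, mul_sum]
          exact sum_congr rfl fun z _ => by ring
      _ = Real.exp v * (gg ρ w y * (v + A) + (1 - A - v) * gg ρ w y) := by rw [e8]; rfl
      _ = gg ρ w y * Real.exp v := by ring
  rw [← e7]
  exact sum_le_sum fun z _ =>
    mul_le_mul_of_nonneg_left (e4 z) (mul_nonneg (hw z) (KK_pos h0 h1 y z).le)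

/-- step 2: the selected flips do not increase the total mass -/
theorem step2 {δ : ℝ} (hδ0 : 0 ≤ δ) (hδ1 : δ ≤ 1 / 2)
    (g : (Fin n → Bool) → ℝ) (hg : ∀ y, 0 ≤ g y)
    (p q : Fin n → (Fin n → Bool) → ℝ) (hp : ∀ i y, 0 ≤ p i y) (hq : ∀ i y, 0 ≤ q i y)
    (hpq : ∀ i y, p i y + q i y ≤ 1)
    (hflip : ∀ i y, p i (fl i y) = q i y)
    (hpinv : ∀ (i j : Fin n) y, i < j → p i (fl j y) = p i y)
    (hqinv : ∀ (i j : Fin n) y, i < j → q i (fl j y) = q i y) :
    ∑ y, ∑ S : Fin n → Bool, g (xr y S) * ∏ i, (if S i then δ * q i y else 1 - δ * p i y)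
      ≤ ∑ x, g x := by
  have hflip' : ∀ i y, q i (fl i y) = p i y := by
    intro i y
    rw [← hflip i (fl i y), fl_fl]
  have e1 : ∑ y, ∑ S : Fin n → Bool, g (xr y S) * ∏ i, (if S i then δ * q i y else 1 - δ * p i y)
      = ∑ x, g x * ∑ S : Fin n → Bool,
        ∏ i, (if S i then δ * q i (xr x S) else 1 - δ * p i (xr x S)) := by
    rw [sum_comm]
    calc ∑ S : Fin n → Bool, ∑ y, g (xr y S) * ∏ i, (if S i then δ * q i y else 1 - δ * p i y)
        = ∑ S : Fin n → Bool, ∑ x, g x *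
            ∏ i, (if S i then δ * q i (xr x S) else 1 - δ * p i (xr x S)) := by
          refine sum_congr rfl fun S _ => ?_
          rw [← sum_xr S (fun y => g (xr y S) * ∏ i, (if S i then δ * q i y else 1 - δ * p i y))]
          refine sum_congr rfl fun x _ => ?_
          simp only [xr_xr]
      _ = _ := by
          rw [sum_comm]
          exact sum_congr rfl fun x _ => by rw [mul_sum]
  rw [e1]
  refine sum_le_sum fun x _ => ?_
  have h := sum_prod_cond
    (fun i S => if S i then δ * q i (xr x S) else 1 - δ * p i (xr x S)) ?_ ?_ ?_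
  · calc g x * _ ≤ g x * 1 := mul_le_mul_of_nonneg_left h (hg x)
      _ = g x := mul_one _
  · intro i S
    have := hp i (xr x S)
    have := hq i (xr x S)
    have := hpq i (xr x S)
    split_ifs
    · positivity
    · nlinarith
  · intro i j S hij
    rw [fl_ne (ne_of_lt hij), xr_fl, hpinv i j _ hij, hqinv i j _ hij]
  · intro i S
    rw [fl_same, xr_fl, hflip, hflip']
    cases S i <;> simp

end Pool.Agent.Tal
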