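import Pool.Agent.Tal.Proc

/-!
# The lower bound: indicators of subcubes
-/

set_option autoImplicit false

namespace Pool.Agent.Tal

open Finset

variable {n : ℕ}

/-- the density factor of a bit -/
noncomputable def ff (ρ : ℝ) (b : Bool) : ℝ := if b then 1 + ρ else 1 - ρ

/-- the product of the first `k` density factors -/
noncomputable def PM (ρ : ℝ) (k : ℕ) (y : Fin n → Bool) : ℝ :=
  ∏ i ∈ univ.filter (fun i : Fin n => i.val < k), ff ρ (y i)

lemma ff_pos {ρ : ℝ} (h0 : 0 < ρ) (h1 : ρ < 1) (b : Bool) : 0 < ff ρ b := by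
  unfold ff; split_ifs <;> linarith

lemma ff_le {ρ : ℝ} (h0 : 0 < ρ) (b : Bool) : ff ρ b ≤ 1 + ρ := by
  unfold ff; split_ifs <;> linarith

lemma PM_succ (ρ : ℝ) (k : Fin n) (y : Fin n → Bool) :
    PM ρ (k.val + 1) y = ff ρ (y k) * PM ρ k.val y := by
  unfold PM
  rw [filter_lt_succ k.val k.2, prod_insert (notMem_filter_lt k.val k.2)]

lemma PM_inv (ρ : ℝ) (k : ℕ) (i : Fin n) (y : Fin n → Bool) (h : k ≤ i.val) :
    PM ρ k (fl i y) = PM ρ k y := by
  unfold PM
  refine prod_congr rfl fun j hj => ?_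
  simp only [mem_filter, mem_univ, true_and] at hj
  have : j ≠ i := by rintro rfl; omega
  rw [fl_ne this]

lemma PM_MG {ρ : ℝ} (h0 : 0 < ρ) (h1 : ρ < 1) : MG n (PM ρ) where
  pos := fun k y => prod_pos fun i _ => ff_pos h0 h1 _
  zero := by intro y; simp [PM]
  inv := fun k i y h => PM_inv ρ k i y h
  avg := by
    intro k y
    rw [PM_succ, PM_succ, PM_inv ρ k.val k y le_rfl, fl_same]
    unfold ff
    cases y k <;> simp <;> ring

/-- martingale property against adapted functions -/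
lemma MG_proj {M : ℕ → (Fin n → Bool) → ℝ} (hM : MG n M) (h : (Fin n → Bool) → ℝ) (k : ℕ)
    (hk : k ≤ n) (hinv : ∀ (i : Fin n) y, k ≤ i.val → h (fl i y) = h y) :
    ∑ y, M n y * h y = ∑ y, M k y * h y := by
  have key : ∀ m, k ≤ m → m ≤ n → ∑ y, M m y * h y = ∑ y, M k y * h y := by
    intro m hm
    induction m, hm using Nat.le_induction with
    | base => intro _; rfl
    | succ m hm ih =>
      intro hmn
      rw [← ih (Nat.le_of_succ_le hmn)]
      have e3 := sum_fl (⟨m, hmn⟩ : Fin n) (fun y => M (m + 1) y * h y)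
      have e4 : ∑ y, M (m + 1) y * h y + ∑ y, M (m + 1) (fl ⟨m, hmn⟩ y) * h (fl ⟨m, hmn⟩ y)
          = 2 * ∑ y, M m y * h y := by
        rw [← sum_add_distrib, mul_sum]
        refine sum_congr rfl fun y _ => ?_
        rw [hinv ⟨m, hmn⟩ y hm]
        have := hM.avg ⟨m, hmn⟩ y
        have e5 : M (m + 1) y * h y + M (m + 1) (fl ⟨m, hmn⟩ y) * h y
            = (M (m + 1) y + M (m + 1) (fl ⟨m, hmn⟩ y)) * h y := by ring
        rw [e5, this]; ring
      linarith
  exact key n hk le_rfl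

/-- log ratio -/
noncomputable def ell (ρ : ℝ) : ℝ := Real.log (1 + ρ) - Real.log (1 - ρ)

/-- drift -/
noncomputable def hh (ρ : ℝ) : ℝ :=
  (1 + ρ) / 2 * Real.log (1 + ρ) + (1 - ρ) / 2 * Real.log (1 - ρ)

lemma ell_pos {ρ : ℝ} (h0 : 0 < ρ) (h1 : ρ < 1) : 0 < ell ρ := by
  unfold ell
  have := Real.log_lt_log (by linarith : 0 < 1 - ρ) (by linarith : 1 - ρ < 1 + ρ)
  linarith

lemma hh_pos {ρ : ℝ} (h0 : 0 < ρ) (h1 : ρ < 1) : 0 < hh ρ := by
  unfold hh
  have a1 : 2 * ρ / (ρ + 2) ≤ Real.log (1 + ρ) := Real.le_log_one_add_of_nonneg h0.le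
  have a2 : 1 - (1 - ρ)⁻¹ ≤ Real.log (1 - ρ) := Real.one_sub_inv_le_log_of_pos (by linarith)
  have a3 : (1 - ρ) / 2 * (1 - (1 - ρ)⁻¹) = -ρ / 2 := by
    have : (1 - ρ) ≠ 0 := by linarith
    field_simp
    ring
  have a4 : ρ / 2 < (1 + ρ) / 2 * (2 * ρ / (ρ + 2)) := by
    rw [mul_div_assoc', lt_div_iff₀ (by linarith)]
    nlinarith [mul_pos h0 h0]
  have a5 := mul_le_mul_of_nonneg_left a1 (by linarith : 0 ≤ (1 + ρ) / 2)
  have a6 := mul_le_mul_of_nonneg_left a2 (by linarith : 0 ≤ (1 - ρ) / 2)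
  rw [a3] at a6
  linarith

lemma log_PM {ρ : ℝ} (h0 : 0 < ρ) (h1 : ρ < 1) (k : ℕ) (y : Fin n → Bool) :
    Real.log (PM ρ k y) = ∑ i ∈ univ.filter (fun i : Fin n => i.val < k), Real.log (ff ρ (y i)) := by
  unfold PM
  exact Real.log_prod (fun i _ => (ff_pos h0 h1 _).ne')

/-- exponential moments of the log-likelihood -/
theorem expPM {ρ : ℝ} (h0 : 0 < ρ) (h1 : ρ < 1) {s : ℝ} (hs : |s| * ell ρ ≤ 1) {k : ℕ}
    (hk : k ≤ n) :
    ∑ y : Fin n → Bool, PM ρ n y * Real.exp (s * (Real.log (PM ρ k y) - k * hh ρ)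
      - s ^ 2 * ell ρ ^ 2 * k) ≤ 2 ^ n := by
  have hl := ell_pos h0 h1
  have h := SM (PM_MG (n := n) h0 h1) (fun i y => if i.val < k then
      Real.exp (s * (Real.log (ff ρ (y i)) - hh ρ) - s ^ 2 * ell ρ ^ 2) else 1)
    ?_ ?_ ?_
  · refine le_trans (le_of_eq ?_) h
    refine sum_congr rfl fun y _ => ?_
    rw [← prod_filter, ← Real.exp_sum, log_PM h0 h1]
    congr 2
    rw [sum_sub_distrib, ← mul_sum, sum_sub_distrib, sum_const, sum_const, Fin.card_filter_val_lt,
      min_eq_right hk, nsmul_eq_mul, nsmul_eq_mul]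
    ring
  · intro i y
    split_ifs
    · exact (Real.exp_pos _).le
    · exact zero_le_one
  · intro i j y hij
    rw [fl_ne (ne_of_lt hij)]
  · intro i y
    have hm := (PM_MG (n := n) h0 h1).pos i.val y
    rw [PM_succ, PM_succ, PM_inv ρ i.val i y le_rfl, fl_same]
    by_cases hik : i.val < k
    · rw [if_pos hik, if_pos hik]
      have key : (1 + ρ) * Real.exp (s * (Real.log (1 + ρ) - hh ρ) - s ^ 2 * ell ρ ^ 2)
          + (1 - ρ) * Real.exp (s * (Real.log (1 - ρ) - hh ρ) - s ^ 2 * ell ρ ^ 2) ≤ 2 := by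
        have e1 : Real.log (1 + ρ) - hh ρ = (1 - ρ) / 2 * ell ρ := by unfold hh ell; ring
        have e2 : Real.log (1 - ρ) - hh ρ = -((1 + ρ) / 2 * ell ρ) := by unfold hh ell; ring
        rw [e1, e2]
        set l := ell ρ
        have b1 : |s * ((1 - ρ) / 2 * l)| ≤ 1 := by
          rw [abs_mul, abs_mul, abs_of_pos hl, abs_of_pos (by linarith : 0 < (1 - ρ) / 2)]
          calc |s| * ((1 - ρ) / 2 * l) = |s| * l * ((1 - ρ) / 2) := by ring
            _ ≤ 1 * ((1 - ρ) / 2) := mul_le_mul_of_nonneg_right hs (by linarith)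
            _ ≤ 1 := by linarith
        have b2 : |s * -((1 + ρ) / 2 * l)| ≤ 1 := by
          rw [abs_mul, abs_neg, abs_mul, abs_of_pos hl, abs_of_pos (by linarith : 0 < (1 + ρ) / 2)]
          calc |s| * ((1 + ρ) / 2 * l) = |s| * l * ((1 + ρ) / 2) := by ring
            _ ≤ 1 * ((1 + ρ) / 2) := mul_le_mul_of_nonneg_right hs (by linarith)
            _ ≤ 1 := by linarith
        have c1 := mul_le_mul_of_nonneg_left (exp_le_quad b1) (by linarith : 0 ≤ 1 + ρ)
        have c2 := mul_le_mul_of_nonneg_left (exp_le_quad b2) (by linarith : 0 ≤ 1 - ρ)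
        have c3 := Real.add_one_le_exp (s ^ 2 * l ^ 2)
        have c4 : (1 + ρ) * Real.exp (s * ((1 - ρ) / 2 * l))
            + (1 - ρ) * Real.exp (s * -((1 + ρ) / 2 * l)) ≤ 2 * Real.exp (s ^ 2 * l ^ 2) := by
          have d1 : (1 + ρ) * (1 + s * ((1 - ρ) / 2 * l) + (s * ((1 - ρ) / 2 * l)) ^ 2)
              + (1 - ρ) * (1 + s * -((1 + ρ) / 2 * l) + (s * -((1 + ρ) / 2 * l)) ^ 2)
              = 2 + s ^ 2 * l ^ 2 * ((1 + ρ) * (1 - ρ) / 2) := by ring
          have d2 : s ^ 2 * l ^ 2 * ((1 + ρ) * (1 - ρ) / 2) ≤ s ^ 2 * l ^ 2 * 1 :=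
            mul_le_mul_of_nonneg_left (by nlinarith) (by positivity)
          have d3 : 0 ≤ s ^ 2 * l ^ 2 := by positivity
          linarith
        have e3 : ∀ x : ℝ, Real.exp (x - s ^ 2 * l ^ 2)
            = Real.exp x * Real.exp (-(s ^ 2 * l ^ 2)) := by
          intro x; rw [← Real.exp_add]; congr 1
        rw [e3, e3]
        have hE := Real.exp_pos (-(s ^ 2 * l ^ 2))
        have c5 := mul_le_mul_of_nonneg_right c4 hE.le
        have e4 : 2 * Real.exp (s ^ 2 * l ^ 2) * Real.exp (-(s ^ 2 * l ^ 2)) = 2 := by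
          rw [mul_assoc, ← Real.exp_add]; simp
        rw [e4] at c5
        linarith
      have key2 := mul_le_mul_of_nonneg_left key hm.le
      unfold ff
      cases y i
      · simp only [Bool.false_eq_true, if_false, Bool.not_false, if_true]
        linarith
      · simp only [Bool.not_true, Bool.false_eq_true, if_false, if_true]
        linarith
    · rw [if_neg hik, if_neg hik]
      unfold ff
      cases y i
      · simp only [Bool.false_eq_true, if_false, Bool.not_false, if_true]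
        linarith
      · simp only [Bool.not_true, Bool.false_eq_true, if_false, if_true]
        linarith

end Pool.Agent.Tal
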