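import Pool.Agent.Tal.Proc

/-!
# Talagrand's convolution inequality with the sharp rate
-/

set_option autoImplicit false

namespace Pool.Agent.Tal

open Finset

variable {n : ℕ}

/-- the drift function -/
noncomputable def Phi (x : ℝ) : ℝ := if 1 ≤ x then 1 - 1 / x else x - 1

/-- the weight function -/
noncomputable def Wt (x : ℝ) : ℝ := if 1 ≤ x then 1 / x else x

lemma phi_ineq {x x' : ℝ} (hx : 0 < x) (hx' : 0 < x') :
    Wt x * (x' - x) ≤ x' * (Phi x' - Phi x) := by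
  unfold Wt Phi
  by_cases h : 1 ≤ x
  · by_cases h' : 1 ≤ x'
    · rw [if_pos h, if_pos h', if_pos h]
      have : 1 / x * (x' - x) = x' * (1 - 1 / x' - (1 - 1 / x)) := by
        field_simp
        ring
      linarith
    · rw [if_pos h, if_neg h', if_pos h]
      have : x' * (x' - 1 - (1 - 1 / x)) = 1 / x * (x' - x) + (x' - 1) ^ 2 := by
        field_simp
        ring
      nlinarith [sq_nonneg (x' - 1)]
  · by_cases h' : 1 ≤ x'
    · rw [if_neg h, if_pos h', if_neg h]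
      have : x' * (1 - 1 / x' - (x - 1)) = x * (x' - x) + (1 - x) * (2 * x' - 1 - x) := by
        field_simp
        ring
      rw [this]
      push Not at h
      have : 0 ≤ (1 - x) * (2 * x' - 1 - x) := mul_nonneg (by linarith) (by linarith)
      linarith
    · rw [if_neg h, if_neg h', if_neg h]
      nlinarith [sq_nonneg (x' - x)]

lemma Wt_nonneg {x : ℝ} (hx : 0 < x) : 0 ≤ Wt x := by
  unfold Wt; split_ifs <;> positivity

lemma Wt_le {x : ℝ} : Wt x ≤ 1 := by
  unfold Wt; split_ifs with h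
  · rw [div_le_one (by linarith)]; exact h
  · push Not at h; exact h.le

lemma Phi_Wt {x : ℝ} (hx : 0 < x) : |Phi x + Wt x| ≤ 1 := by
  unfold Wt Phi
  split_ifs with h
  · simp
  · push Not at h
    rw [abs_le]; constructor <;> linarith

/-- the auxiliary process `K` -/
noncomputable def Kf (g : (Fin n → Bool) → ℝ) (Λ : ℝ) (y : Fin n → Bool) : ℝ :=
  ∑ i, (pp (MM g) Λ i y - qq (MM g) Λ i y * (g (fl i y) / g y))

section
variable {g : (Fin n → Bool) → ℝ} (hg : ∀ y, 0 < g y) (hs : ∑ y, g y = 2 ^ n) {Λ : ℝ}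

include hg hs

/-- summation by parts -/
lemma sumK (F : (Fin n → Bool) → ℝ) : ∑ y, g y * Kf g Λ y * F y
    = ∑ y, ∑ i, qq (MM g) Λ i y * (g (fl i y) * (F (fl i y) - F y)) := by
  have hM := MM_MG hg hs
  have e1 : ∀ y, g y * Kf g Λ y * F y
      = ∑ i, pp (MM g) Λ i y * (g y * F y) - ∑ i, qq (MM g) Λ i y * (g (fl i y) * F y) := by
    intro y
    have := (hg y).ne'
    unfold Kf
    rw [← sum_sub_distrib, mul_sum, sum_mul]
    refine sum_congr rfl fun i _ => ?_
    field_simp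
  have e2 : ∑ y, ∑ i, pp (MM g) Λ i y * (g y * F y)
      = ∑ y, ∑ i, qq (MM g) Λ i y * (g (fl i y) * F (fl i y)) := by
    rw [sum_comm, sum_comm (s := univ) (t := univ)
      (f := fun y i => qq (MM g) Λ i y * (g (fl i y) * F (fl i y)))]
    refine sum_congr rfl fun i _ => ?_
    rw [← sum_fl i (fun y => pp (MM g) Λ i y * (g y * F y))]
    refine sum_congr rfl fun y _ => ?_
    rw [pp_fl hM]
  simp only [e1]
  rw [sum_sub_distrib, e2, ← sum_sub_distrib]
  refine sum_congr rfl fun y _ => ?_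
  rw [← sum_sub_distrib]
  exact sum_congr rfl fun i _ => by ring

lemma sumK0 : ∑ y, g y * Kf g Λ y = 0 := by
  have h := sumK hg hs (Λ := Λ) (fun _ => 1)
  simpa using h

end

/-- the main estimate for normalised functions and large levels -/
theorem main_bound {ρ : ℝ} (h0 : 0 < ρ) (h1 : ρ < 1) (w : (Fin n → Bool) → ℝ)
    (hw : ∀ z, 0 ≤ w z) (hg : ∀ y, 0 < gg ρ w y) (hs : ∑ y, gg ρ w y = 2 ^ n)
    {L : ℝ} (hL : 1 ≤ L) :
    ((univ.filter (fun y => Real.exp L < gg ρ w y)).card : ℝ)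
      ≤ 402 / (1 - ρ) ^ 2 / (Real.exp L * Real.sqrt L) * 2 ^ n := by
  obtain ⟨g, hgdef⟩ : ∃ g : (Fin n → Bool) → ℝ, g = gg ρ w := ⟨_, rfl⟩
  have hκ := kap_ge h0 h1
  have h1' : 0 < 1 - ρ := by linarith
  have hratio : ∀ i y, g (fl i y) ≤ kap ρ * g y := by
    intro i y; rw [hgdef]; exact gg_fl_le h0 h1 w hw i y
  have hK1 : ∀ (p q : Fin n → (Fin n → Bool) → ℝ) (δ : ℝ), 0 ≤ δ → δ ≤ 1 / 2 →
      (∀ i y, 0 ≤ p i y) → (∀ i y, 0 ≤ q i y) → (∀ i y, p i y + q i y ≤ 1) →
      (∀ i y, p i (fl i y) = q i y) →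
      (∀ (i j : Fin n) y, i < j → p i (fl j y) = p i y) →
      (∀ (i j : Fin n) y, i < j → q i (fl j y) = q i y) →
      ∑ y, g y * Real.exp (-δ * (∑ i, (p i y - q i y * (g (fl i y) / g y)))
        - kap ρ ^ 2 * δ ^ 2 * ∑ i, (p i y + q i y) ^ 2) ≤ 2 ^ n := by
    intro p q δ hδ0 hδ1 hp hq hpq hf hpi hqi
    rw [← hs, hgdef]
    refine le_trans (sum_le_sum fun y _ => step1 h0 h1 hδ0 hδ1 w hw y (hg y)
      (fun i => p i y) (fun i => q i y) (fun i => hp i y) (fun i => hq i y) (fun i => hpq i y)) ?_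
    exact step2 hδ0 hδ1 (gg ρ w) (fun y => (hg y).le) p q hp hq hpq hf hpi hqi
  rw [← hgdef] at hg hs ⊢
  have hM := MM_MG hg hs
  have hr : ∀ (k : Fin n) y, MM g (k.val + 1) (fl k y) ≤ (1 + ρ) / (1 - ρ) * MM g (k.val + 1) y :=
    fun k y => MM_ratio hratio _ k y
  obtain ⟨Λ, hΛ⟩ : ∃ Λ : ℝ, Λ = L / 2 := ⟨_, rfl⟩
  have hsL : 1 ≤ Real.sqrt L := by rw [Real.one_le_sqrt]; exact hL
  have hsL2 : Real.sqrt L * Real.sqrt L = L := Real.mul_self_sqrt (by linarith)
  have hsL3 : Real.sqrt L ≤ L := by nlinarith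
  obtain ⟨δ, hδ⟩ : ∃ δ : ℝ, δ = 1 / (2 * kap ρ * Real.sqrt L) := ⟨_, rfl⟩
  have hκ0 : 0 < kap ρ := by linarith
  have hδ0 : 0 < δ := by rw [hδ]; positivity
  have hδκ : δ * kap ρ * (2 * Real.sqrt L) = 1 := by rw [hδ]; field_simp
  have hδκ2 : kap ρ ^ 2 * δ ^ 2 * (4 * L) = 1 := by
    have : kap ρ ^ 2 * δ ^ 2 * (4 * L) = (δ * kap ρ * (2 * Real.sqrt L)) ^ 2 := by
      have : L = Real.sqrt L ^ 2 := by rw [sq]; exact hsL2.symm
      nth_rewrite 1 [this]
      ring
    rw [this, hδκ]; norm_num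
  have hδκ3 : δ * kap ρ ≤ 1 / 2 := by
    have : 0 < δ * kap ρ := by positivity
    nlinarith
  have hδ1 : δ ≤ 1 / 2 := by nlinarith
  have hBT : ∀ y, ∑ i, (pp (MM g) Λ i y + qq (MM g) Λ i y) ^ 2 ≤ 3 / 2 * L := by
    intro y
    have h := act_upper (M := MM g) (Λ := Λ) (by rw [hΛ]; linarith) y
      (fun k => (dd_abs hM h1 hr k y).trans h1.le)
    rw [hΛ] at h ⊢
    linarith
  have hExp : ∀ y, Real.exp (kap ρ ^ 2 * δ ^ 2 *
      ∑ i, (pp (MM g) Λ i y + qq (MM g) Λ i y) ^ 2) ≤ 3 := by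
    intro y
    have h2 : kap ρ ^ 2 * δ ^ 2 * ∑ i, (pp (MM g) Λ i y + qq (MM g) Λ i y) ^ 2 ≤ 1 := by
      have h3 : 0 ≤ kap ρ ^ 2 * δ ^ 2 := by positivity
      have h4 := mul_le_mul_of_nonneg_left (hBT y) h3
      nlinarith
    have h5 := Real.exp_le_exp.2 h2
    have h6 := Real.exp_one_lt_d9
    linarith
  have hcp : ∀ i y, pp (MM g) Λ i y + qq (MM g) Λ i y ≤ ρ := fun i y => cc_le hM h1 hr i y h0
  -- E1
  have E1 : ∑ y, g y * |Kf g Λ y| ≤ 12 * kap ρ * Real.sqrt L * 2 ^ n := by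
    have hk := hK1 (fun i y => pp (MM g) Λ i y) (fun i y => qq (MM g) Λ i y) δ hδ0.le hδ1
      (fun i y => pp_nonneg _ _ _ _) (fun i y => qq_nonneg _ _ _ _)
      (fun i y => (hcp i y).trans h1.le) (fun i y => pp_fl hM Λ i y)
      (fun i j y hij => pp_inv hM Λ i j y hij) (fun i j y hij => qq_inv hM Λ i j y hij)
    have e1 : ∀ y, δ * (g y * |Kf g Λ y|) ≤ δ * (g y * Kf g Λ y) + 6 * (g y *
        Real.exp (-δ * (Kf g Λ y) - kap ρ ^ 2 * δ ^ 2 *
          ∑ i, (pp (MM g) Λ i y + qq (MM g) Λ i y) ^ 2)) := by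
      intro y
      have hgy := hg y
      set K := Kf g Λ y
      set B := kap ρ ^ 2 * δ ^ 2 * ∑ i, (pp (MM g) Λ i y + qq (MM g) Λ i y) ^ 2
      have hE : Real.exp B ≤ 3 := hExp y
      have e2 : Real.exp (-δ * K - B) * Real.exp B = Real.exp (-δ * K) := by
        rw [← Real.exp_add]; congr 1; ring
      have e3 : Real.exp (-δ * K) ≤ 3 * Real.exp (-δ * K - B) := by
        rw [← e2, mul_comm]
        exact mul_le_mul_of_nonneg_right hE (Real.exp_pos _).le
      have e4 := Real.add_one_le_exp (-δ * K)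
      have e5 := Real.exp_pos (-δ * K)
      have e6 : δ * |K| ≤ δ * K + 2 * Real.exp (-δ * K) := by
        rcases le_total 0 K with h | h
        · rw [abs_of_nonneg h]; linarith
        · rw [abs_of_nonpos h]; nlinarith
      nlinarith
    have e2 : δ * ∑ y, g y * |Kf g Λ y| ≤ 6 * 2 ^ n := by
      calc δ * ∑ y, g y * |Kf g Λ y| = ∑ y, δ * (g y * |Kf g Λ y|) := by rw [mul_sum]
        _ ≤ ∑ y, (δ * (g y * Kf g Λ y) + 6 * (g y *
        Real.exp (-δ * (Kf g Λ y) - kap ρ ^ 2 * δ ^ 2 *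
          ∑ i, (pp (MM g) Λ i y + qq (MM g) Λ i y) ^ 2))) := sum_le_sum fun y _ => e1 y
        _ = δ * (∑ y, g y * Kf g Λ y) + 6 * ∑ y, g y *
        Real.exp (-δ * (Kf g Λ y) - kap ρ ^ 2 * δ ^ 2 *
          ∑ i, (pp (MM g) Λ i y + qq (MM g) Λ i y) ^ 2) := by
            rw [sum_add_distrib, mul_sum, mul_sum]
        _ ≤ 6 * 2 ^ n := by
            rw [sumK0 hg hs, mul_zero, zero_add]
            exact mul_le_mul_of_nonneg_left hk (by norm_num)
    have e3 : ∑ y, g y * |Kf g Λ y| = (δ * kap ρ * (2 * Real.sqrt L)) * ∑ y, g y * |Kf g Λ y| := by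
      rw [hδκ, one_mul]
    rw [e3]
    calc (δ * kap ρ * (2 * Real.sqrt L)) * ∑ y, g y * |Kf g Λ y|
        = (2 * kap ρ * Real.sqrt L) * (δ * ∑ y, g y * |Kf g Λ y|) := by ring
      _ ≤ (2 * kap ρ * Real.sqrt L) * (6 * 2 ^ n) := mul_le_mul_of_nonneg_left e2 (by positivity)
      _ = 12 * kap ρ * Real.sqrt L * 2 ^ n := by ring
  -- E2
  obtain ⟨U, hU⟩ : ∃ U : (Fin n → Bool) → ℝ, U = fun y => ∑ i, uu (MM g) Λ i y := ⟨_, rfl⟩
  have E2 : ∑ y, g y * |U y| ≤ 12 * kap ρ * Real.sqrt L * 2 ^ n := by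
    have hk1 := expU hM h0 h1 hr (Λ := Λ) (s := δ) (by rw [abs_of_pos hδ0]; linarith)
    have hk2 := expU hM h0 h1 hr (Λ := Λ) (s := -δ) (by rw [abs_neg, abs_of_pos hδ0]; linarith)
    have e1 : ∀ y, δ * (g y * |U y|) ≤
        3 * (MM g n y * Real.exp (δ * (∑ i, uu (MM g) Λ i y)
          - kap ρ ^ 2 * δ ^ 2 * ∑ i, (pp (MM g) Λ i y + qq (MM g) Λ i y) ^ 2)) +
        3 * (MM g n y * Real.exp (-δ * (∑ i, uu (MM g) Λ i y)
          - kap ρ ^ 2 * (-δ) ^ 2 * ∑ i, (pp (MM g) Λ i y + qq (MM g) Λ i y) ^ 2)) := by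
      intro y
      have hgy := hg y
      have hUy : ∑ i, uu (MM g) Λ i y = U y := by rw [hU]
      have hE : Real.exp (kap ρ ^ 2 * δ ^ 2 *
        ∑ i, (pp (MM g) Λ i y + qq (MM g) Λ i y) ^ 2) ≤ 3 := hExp y
      rw [hUy, MM_n, neg_sq]
      set B := kap ρ ^ 2 * δ ^ 2 * ∑ i, (pp (MM g) Λ i y + qq (MM g) Λ i y) ^ 2
      have a1 : ∀ x : ℝ, Real.exp x ≤ 3 * Real.exp (x - B) := by
        intro x
        have e2 : Real.exp (x - B) * Real.exp B = Real.exp x := by
          rw [← Real.exp_add]; congr 1; ring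
        rw [← e2, mul_comm]
        exact mul_le_mul_of_nonneg_right hE (Real.exp_pos _).le
      have a2 := a1 (δ * U y)
      have a3 := a1 (-δ * U y)
      have a4 := Real.add_one_le_exp (δ * U y)
      have a5 := Real.add_one_le_exp (-δ * U y)
      have a6 := Real.exp_pos (δ * U y)
      have a7 := Real.exp_pos (-δ * U y)
      have e6 : δ * |U y| ≤ Real.exp (δ * U y) + Real.exp (-δ * U y) := by
        rcases le_total 0 (U y) with h | h
        · rw [abs_of_nonneg h]; linarith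
        · rw [abs_of_nonpos h]; nlinarith
      nlinarith
    have e2 : δ * ∑ y, g y * |U y| ≤ 6 * 2 ^ n := by
      rw [mul_sum]
      refine le_trans (sum_le_sum fun y _ => e1 y) ?_
      rw [sum_add_distrib, ← mul_sum, ← mul_sum]
      linarith
    have e3 : ∑ y, g y * |U y| = (δ * kap ρ * (2 * Real.sqrt L)) * ∑ y, g y * |U y| := by
      rw [hδκ, one_mul]
    rw [e3]
    calc (δ * kap ρ * (2 * Real.sqrt L)) * ∑ y, g y * |U y|
        = (2 * kap ρ * Real.sqrt L) * (δ * ∑ y, g y * |U y|) := by ring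
      _ ≤ (2 * kap ρ * Real.sqrt L) * (6 * 2 ^ n) := mul_le_mul_of_nonneg_left e2 (by positivity)
      _ = 12 * kap ρ * Real.sqrt L * 2 ^ n := by ring
  -- E3
  obtain ⟨η, hη⟩ : ∃ η : ℝ, η = Real.exp L := ⟨_, rfl⟩
  have hη0 : 0 < η := by rw [hη]; exact Real.exp_pos _
  obtain ⟨G, hG⟩ : ∃ G : (Fin n → Bool) → ℝ, G = fun y => ∑ i, qq (MM g) Λ i y *
    ((1 + (pp (MM g) Λ i y + qq (MM g) Λ i y)) / (1 - (pp (MM g) Λ i y + qq (MM g) Λ i y)) - 1) :=
    ⟨_, rfl⟩
  have E3 : ∑ y, g y * (Wt (g y / η) * G y) ≤ 24 * kap ρ * Real.sqrt L * 2 ^ n := by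
    have e1 : ∀ y, Wt (g y / η) * (g y * (G y + U y - Kf g Λ y))
        ≤ ∑ i, qq (MM g) Λ i y * (g (fl i y) * (Phi (g (fl i y) / η) - Phi (g y / η))) := by
      intro y
      have a1 : g y * (G y + U y - Kf g Λ y) = ∑ i, qq (MM g) Λ i y * (g (fl i y) - g y) := by
        rw [hG, hU]
        dsimp only
        unfold Kf uu
        rw [← sum_add_distrib, ← sum_sub_distrib, mul_sum]
        refine sum_congr rfl fun i _ => ?_
        have := (hg y).ne'
        have e5 : g (fl i y) = g y * (g (fl i y) / g y) := by field_simp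
        nth_rewrite 2 [e5]
        ring
      rw [a1, mul_sum]
      refine sum_le_sum fun i _ => ?_
      have a2 := phi_ineq (div_pos (hg y) hη0) (div_pos (hg (fl i y)) hη0)
      have a3 : Wt (g y / η) * (g (fl i y) - g y)
          ≤ g (fl i y) * (Phi (g (fl i y) / η) - Phi (g y / η)) := by
        have a4 := mul_le_mul_of_nonneg_left a2 hη0.le
        have a5 : η * (Wt (g y / η) * (g (fl i y) / η - g y / η))
            = Wt (g y / η) * (g (fl i y) - g y) := by
          field_simp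
        have a6 : η * (g (fl i y) / η * (Phi (g (fl i y) / η) - Phi (g y / η)))
            = g (fl i y) * (Phi (g (fl i y) / η) - Phi (g y / η)) := by
          field_simp
        rwa [a5, a6] at a4
      have a7 := mul_le_mul_of_nonneg_left a3 (qq_nonneg (MM g) Λ i y)
      linarith
    have e2 : ∑ y, Wt (g y / η) * (g y * (G y + U y - Kf g Λ y))
        ≤ ∑ y, g y * Kf g Λ y * Phi (g y / η) := by
      rw [sumK hg hs (fun y => Phi (g y / η))]
      exact sum_le_sum fun y _ => e1 y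
    have e3 : ∑ y, g y * (Wt (g y / η) * G y) ≤ ∑ y, (g y * |Kf g Λ y| + g y * |U y|) := by
      have e4 : ∑ y, g y * (Wt (g y / η) * G y)
          = ∑ y, Wt (g y / η) * (g y * (G y + U y - Kf g Λ y))
            - ∑ y, g y * Kf g Λ y * Phi (g y / η)
            + ∑ y, (g y * (Kf g Λ y * (Phi (g y / η) + Wt (g y / η)))
                - g y * (Wt (g y / η) * U y)) := by
        rw [← sum_sub_distrib, ← sum_add_distrib]
        exact sum_congr rfl fun y _ => by ring
      have e5 : ∑ y, (g y * (Kf g Λ y * (Phi (g y / η) + Wt (g y / η)))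
                - g y * (Wt (g y / η) * U y)) ≤ ∑ y, (g y * |Kf g Λ y| + g y * |U y|) := by
        refine sum_le_sum fun y _ => ?_
        have hx := div_pos (hg y) hη0
        have b1 : Kf g Λ y * (Phi (g y / η) + Wt (g y / η)) ≤ |Kf g Λ y| := by
          calc Kf g Λ y * (Phi (g y / η) + Wt (g y / η))
              ≤ |Kf g Λ y * (Phi (g y / η) + Wt (g y / η))| := le_abs_self _
            _ = |Kf g Λ y| * |Phi (g y / η) + Wt (g y / η)| := abs_mul _ _
            _ ≤ |Kf g Λ y| * 1 := mul_le_mul_of_nonneg_left (Phi_Wt hx) (abs_nonneg _)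
            _ = |Kf g Λ y| := mul_one _
        have b2 : -(Wt (g y / η) * U y) ≤ |U y| := by
          calc -(Wt (g y / η) * U y) ≤ |Wt (g y / η) * U y| := neg_le_abs _
            _ = |Wt (g y / η)| * |U y| := abs_mul _ _
            _ ≤ 1 * |U y| := by
                refine mul_le_mul_of_nonneg_right ?_ (abs_nonneg _)
                rw [abs_of_nonneg (Wt_nonneg hx)]
                exact Wt_le
            _ = |U y| := one_mul _
        have b3 := mul_le_mul_of_nonneg_left b1 (hg y).le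
        have b4 := mul_le_mul_of_nonneg_left b2 (hg y).le
        linarith
      linarith
    rw [sum_add_distrib] at e3
    linarith
  -- lower bound of G
  obtain ⟨G', hG'⟩ : ∃ G' : (Fin n → Bool) → ℝ, G' = fun y => ∑ i, (qq (MM g) Λ i y) ^ 2 :=
    ⟨_, rfl⟩
  have hGG : ∀ y, 2 * G' y ≤ G y := by
    intro y
    rw [hG, hG']
    dsimp only
    rw [mul_sum]
    refine sum_le_sum fun i _ => ?_
    have c1 := hcp i y
    have c2 := pp_nonneg (MM g) Λ i y
    have c3 := qq_nonneg (MM g) Λ i y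
    set c := pp (MM g) Λ i y + qq (MM g) Λ i y
    have c4 : 2 * c ≤ (1 + c) / (1 - c) - 1 := by
      have : 0 < 1 - c := by linarith
      rw [le_sub_iff_add_le, le_div_iff₀ this]
      nlinarith
    have c5 : qq (MM g) Λ i y ≤ c := by
      show qq (MM g) Λ i y ≤ pp (MM g) Λ i y + qq (MM g) Λ i y
      linarith
    have c6 := mul_le_mul_of_nonneg_left c4 c3
    nlinarith
  have hG'0 : ∀ y, 0 ≤ G' y := by
    intro y; rw [hG']; exact sum_nonneg fun i _ => sq_nonneg _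
  have hMarkov : ∀ (A : Finset (Fin n → Bool)) (F : (Fin n → Bool) → ℝ) (b T : ℝ),
      (∀ y, 0 ≤ F y) → (∀ y ∈ A, b ≤ F y) → ∑ y, F y ≤ T → (A.card : ℝ) * b ≤ T := by
    intro A F b T hF hA hT
    refine le_trans ?_ hT
    calc (A.card : ℝ) * b = ∑ _y ∈ A, b := by rw [sum_const, nsmul_eq_mul]
      _ ≤ ∑ y ∈ A, F y := sum_le_sum hA
      _ ≤ ∑ y, F y := sum_le_sum_of_subset_of_nonneg (subset_univ _) (fun y _ _ => hF y)
  -- the three sets
  have F1 : ((univ.filter (fun y => η < g y ∧ bs (MM g) n y < Λ)).card : ℝ)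
      * (η * Real.exp (L / 2)) ≤ 2 ^ n := by
    refine hMarkov _ (fun y => MM g n y * (MM g n y * Real.exp (-(bs (MM g) n y)))) _ _ ?_ ?_
      (expA hM h0 h1 hr)
    · intro y
      have := hM.pos n y
      positivity
    · intro y hy
      simp only [mem_filter, mem_univ, true_and] at hy
      obtain ⟨hy1, hy2⟩ := hy
      simp only [MM_n]
      refine mul_le_mul hy1.le ?_ (Real.exp_pos _).le (hg y).le
      have d1 : Real.exp (-(L / 2)) ≤ Real.exp (-(bs (MM g) n y)) :=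
        Real.exp_le_exp.2 (by rw [hΛ] at hy2; linarith)
      calc Real.exp (L / 2) = η * Real.exp (-(L / 2)) := by
            rw [hη, ← Real.exp_add]; congr 1; ring
        _ ≤ g y * Real.exp (-(bs (MM g) n y)) :=
            mul_le_mul hy1.le d1 (Real.exp_pos _).le (hg y).le
  have F2 : ((univ.filter (fun y => η < g y ∧ (Λ ≤ bs (MM g) n y ∧
      G' y ≤ (1 - ρ) / 16 * L))).card : ℝ) * (η * Real.exp ((1 - ρ) / 16 * L)) ≤ 2 ^ n := by
    refine hMarkov _ (fun y => MM g n y * Real.exp (-(∑ i, (qq (MM g) Λ i y) ^ 2)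
      + (1 - ρ) / 4 * ∑ i, (pp (MM g) Λ i y + qq (MM g) Λ i y) ^ 2)) _ _ ?_ ?_
      (expB hM h0 h1 hr)
    · intro y
      have := hM.pos n y
      positivity
    · intro y hy
      simp only [mem_filter, mem_univ, true_and] at hy
      obtain ⟨hy1, hy2, hy3⟩ := hy
      simp only [MM_n]
      refine mul_le_mul hy1.le (Real.exp_le_exp.2 ?_) (Real.exp_pos _).le (hg y).le
      have d1 := act_lower (M := MM g) y hy2
      rw [hG'] at hy3
      dsimp only at hy3
      have d2 : (1 - ρ) / 4 * Λ ≤ (1 - ρ) / 4 *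
          ∑ i, (pp (MM g) Λ i y + qq (MM g) Λ i y) ^ 2 :=
        mul_le_mul_of_nonneg_left d1 (by positivity)
      have d3 : (1 - ρ) / 4 * Λ = (1 - ρ) / 16 * L + (1 - ρ) / 16 * L := by rw [hΛ]; ring
      linarith
  have F3 : ((univ.filter (fun y => η < g y ∧ (1 - ρ) / 16 * L < G' y)).card : ℝ)
      * (η * ((1 - ρ) / 8 * L)) ≤ 24 * kap ρ * Real.sqrt L * 2 ^ n := by
    refine hMarkov _ (fun y => g y * (Wt (g y / η) * G y)) _ _ ?_ ?_ E3
    · intro y
      have d1 := Wt_nonneg (div_pos (hg y) hη0)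
      have d2 := hGG y
      have d3 := hG'0 y
      have d4 := hg y
      have d5 : 0 ≤ G y := by linarith
      positivity
    · intro y hy
      simp only [mem_filter, mem_univ, true_and] at hy
      obtain ⟨hy1, hy2⟩ := hy
      have d1 : Wt (g y / η) = η / g y := by
        unfold Wt
        rw [if_pos (by rw [le_div_iff₀ hη0]; linarith), one_div_div]
      have d2 : g y * (Wt (g y / η) * G y) = η * G y := by
        rw [d1]
        have := (hg y).ne'
        field_simp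
      rw [d2]
      refine mul_le_mul_of_nonneg_left ?_ hη0.le
      have := hGG y
      linarith
  have hsub : (univ.filter (fun y => Real.exp L < g y)) ⊆
      (univ.filter (fun y => η < g y ∧ bs (MM g) n y < Λ)) ∪
      ((univ.filter (fun y => η < g y ∧ (Λ ≤ bs (MM g) n y ∧ G' y ≤ (1 - ρ) / 16 * L))) ∪
      (univ.filter (fun y => η < g y ∧ (1 - ρ) / 16 * L < G' y))) := by
    intro y hy
    simp only [mem_filter, mem_univ, true_and, mem_union] at hy ⊢
    rw [← hη] at hy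
    by_cases b1 : bs (MM g) n y < Λ
    · left; exact ⟨hy, b1⟩
    · right
      push Not at b1
      by_cases b2 : G' y ≤ (1 - ρ) / 16 * L
      · left; exact ⟨hy, b1, b2⟩
      · right; exact ⟨hy, by push Not at b2; exact b2⟩
  have hcard : ((univ.filter (fun y => Real.exp L < g y)).card : ℝ) ≤
      ((univ.filter (fun y => η < g y ∧ bs (MM g) n y < Λ)).card : ℝ) +
      (((univ.filter (fun y => η < g y ∧ (Λ ≤ bs (MM g) n y ∧
        G' y ≤ (1 - ρ) / 16 * L))).card : ℝ) +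
      ((univ.filter (fun y => η < g y ∧ (1 - ρ) / 16 * L < G' y)).card : ℝ)) := by
    have b1 := card_le_card hsub
    have b2 := card_union_le (univ.filter (fun y => η < g y ∧ bs (MM g) n y < Λ))
      ((univ.filter (fun y => η < g y ∧ (Λ ≤ bs (MM g) n y ∧ G' y ≤ (1 - ρ) / 16 * L))) ∪
      (univ.filter (fun y => η < g y ∧ (1 - ρ) / 16 * L < G' y)))
    have b3 := card_union_le
      (univ.filter (fun y => η < g y ∧ (Λ ≤ bs (MM g) n y ∧ G' y ≤ (1 - ρ) / 16 * L)))
      (univ.filter (fun y => η < g y ∧ (1 - ρ) / 16 * L < G' y))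
    exact_mod_cast (b1.trans b2).trans (Nat.add_le_add_left b3 _)
  -- conclusion
  have hN : (0 : ℝ) < 2 ^ n := by positivity
  set N : ℝ := 2 ^ n
  set x1 : ℝ := ((univ.filter (fun y => η < g y ∧ bs (MM g) n y < Λ)).card : ℝ)
  set x2 : ℝ := ((univ.filter (fun y => η < g y ∧ (Λ ≤ bs (MM g) n y ∧
        G' y ≤ (1 - ρ) / 16 * L))).card : ℝ)
  set x3 : ℝ := ((univ.filter (fun y => η < g y ∧ (1 - ρ) / 16 * L < G' y)).card : ℝ)
  have hx1 : 0 ≤ x1 := Nat.cast_nonneg _
  have hx2 : 0 ≤ x2 := Nat.cast_nonneg _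
  have hx3 : 0 ≤ x3 := Nat.cast_nonneg _
  refine hcard.trans ?_
  rw [← hη]
  set sL := Real.sqrt L
  have hsL0 : 0 < sL := by linarith
  -- each piece times η sL
  have P1 : x1 * (η * sL) ≤ 2 * N := by
    have c1 : sL / 2 ≤ Real.exp (L / 2) := by
      have := Real.add_one_le_exp (L / 2)
      linarith
    have c2 : x1 * (η * (sL / 2)) ≤ x1 * (η * Real.exp (L / 2)) :=
      mul_le_mul_of_nonneg_left (mul_le_mul_of_nonneg_left c1 hη0.le) hx1
    linarith
  have P2 : x2 * (η * sL) * (1 - ρ) ≤ 16 * N := by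
    have c1 : (1 - ρ) / 16 * sL ≤ Real.exp ((1 - ρ) / 16 * L) := by
      have := Real.add_one_le_exp ((1 - ρ) / 16 * L)
      have : (1 - ρ) / 16 * sL ≤ (1 - ρ) / 16 * L := mul_le_mul_of_nonneg_left hsL3 (by positivity)
      linarith
    have c2 : x2 * (η * ((1 - ρ) / 16 * sL)) ≤ x2 * (η * Real.exp ((1 - ρ) / 16 * L)) :=
      mul_le_mul_of_nonneg_left (mul_le_mul_of_nonneg_left c1 hη0.le) hx2
    linarith
  have P3 : x3 * (η * sL) * (1 - ρ) ≤ 192 * kap ρ * N := by
    have c0 : x3 * (η * ((1 - ρ) / 8 * L)) = (x3 * (η * sL) * (1 - ρ)) / 8 * sL := by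
      rw [← hsL2]; ring
    rw [c0] at F3
    have c1 : (x3 * (η * sL) * (1 - ρ)) / 8 * sL ≤ (24 * kap ρ * N) * sL := by linarith
    have c2 := le_of_mul_le_mul_right c1 hsL0
    linarith
  have hκ2 : kap ρ * (1 - ρ) ≤ 2 := by
    unfold kap
    rw [div_mul_cancel₀ _ h1'.ne']
    linarith
  have hden : 0 < η * sL := by positivity
  have total : (x1 + (x2 + x3)) * (η * sL) * (1 - ρ) ^ 2 ≤ 402 * N := by
    have r1 : (1 - ρ) ≤ 1 := by linarith
    have r2 : (1 - ρ) ^ 2 ≤ 1 := by nlinarith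
    have t1 : x1 * (η * sL) * (1 - ρ) ^ 2 ≤ 2 * N := by
      have q1 : 0 ≤ x1 * (η * sL) := by positivity
      calc x1 * (η * sL) * (1 - ρ) ^ 2 ≤ x1 * (η * sL) * 1 := mul_le_mul_of_nonneg_left r2 q1
        _ ≤ 2 * N := by linarith
    have t2 : x2 * (η * sL) * (1 - ρ) ^ 2 ≤ 16 * N := by
      have q1 : 0 ≤ x2 * (η * sL) * (1 - ρ) := by positivity
      calc x2 * (η * sL) * (1 - ρ) ^ 2 = x2 * (η * sL) * (1 - ρ) * (1 - ρ) := by ring
        _ ≤ x2 * (η * sL) * (1 - ρ) * 1 := mul_le_mul_of_nonneg_left r1 q1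
        _ ≤ 16 * N := by linarith
    have t3 : x3 * (η * sL) * (1 - ρ) ^ 2 ≤ 384 * N := by
      calc x3 * (η * sL) * (1 - ρ) ^ 2 = x3 * (η * sL) * (1 - ρ) * (1 - ρ) := by ring
        _ ≤ 192 * kap ρ * N * (1 - ρ) := mul_le_mul_of_nonneg_right P3 h1'.le
        _ = 192 * (kap ρ * (1 - ρ)) * N := by ring
        _ ≤ 192 * 2 * N := by
            refine mul_le_mul_of_nonneg_right ?_ hN.le
            linarith
        _ = 384 * N := by ring
    nlinarith
  rw [div_div, div_mul_eq_mul_div, le_div_iff₀ (by positivity)]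
  calc (x1 + (x2 + x3)) * ((1 - ρ) ^ 2 * (η * sL))
      = (x1 + (x2 + x3)) * (η * sL) * (1 - ρ) ^ 2 := by ring
    _ ≤ 402 * N := total

end Pool.Agent.Tal
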