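import Pool.Agent.Tal.Basic

/-!
# The martingale of a positive function of mean one and its increments
-/

set_option autoImplicit false

namespace Pool.Agent.Tal

open Finset

variable {n : ℕ}

/-- agreement of the first `k` coordinates -/
def agr (k : ℕ) (u y : Fin n → Bool) : Prop := ∀ i : Fin n, i.val < k → u i = y i

instance (k : ℕ) (u y : Fin n → Bool) : Decidable (agr k u y) := by
  unfold agr; infer_instance

/-- conditional expectations of `g` for the uniform measure -/
noncomputable def MM (g : (Fin n → Bool) → ℝ) (k : ℕ) (y : Fin n → Bool) : ℝ :=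
  (∑ u, if agr k u y then g u else 0) / 2 ^ (n - k)

lemma agr_self (k : ℕ) (y : Fin n → Bool) : agr k y y := fun _ _ => rfl

lemma agr_fl_right {k : ℕ} {i : Fin n} (hi : k ≤ i.val) (u y : Fin n → Bool) :
    agr k u (fl i y) ↔ agr k u y := by
  unfold agr
  refine forall_congr' fun j => imp_congr_right fun hj => ?_
  have : j ≠ i := by rintro rfl; omega
  rw [fl_ne this]

lemma agr_fl_fl (k : ℕ) (i : Fin n) (u y : Fin n → Bool) :
    agr k (fl i u) (fl i y) ↔ agr k u y := by
  unfold agr
  refine forall_congr' fun j => imp_congr_right fun hj => ?_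
  by_cases h : j = i
  · subst h; simp [fl_same]
  · rw [fl_ne h, fl_ne h]

lemma agr_succ (k : Fin n) (u y : Fin n → Bool) :
    agr (k.val + 1) u y ↔ agr k.val u y ∧ u k = y k := by
  unfold agr
  constructor
  · intro h
    exact ⟨fun i hi => h i (by omega), h k (by omega)⟩
  · rintro ⟨h1, h2⟩ i hi
    rcases Nat.lt_succ_iff_lt_or_eq.1 hi with h | h
    · exact h1 i h
    · have : i = k := Fin.ext h
      subst this; exact h2

lemma MM_n (g : (Fin n → Bool) → ℝ) (y : Fin n → Bool) : MM g n y = g y := by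
  unfold MM
  have : ∀ u : Fin n → Bool, agr n u y ↔ u = y := by
    intro u
    constructor
    · intro h
      funext i
      exact h i i.2
    · rintro rfl
      exact agr_self _ _
  simp [this]

lemma MM_MG {g : (Fin n → Bool) → ℝ} (hg : ∀ y, 0 < g y) (hs : ∑ y, g y = 2 ^ n) :
    MG n (MM g) where
  pos := by
    intro k y
    unfold MM
    refine div_pos ?_ (by positivity)
    refine sum_pos' (fun u _ => ?_) ⟨y, mem_univ _, ?_⟩
    · split_ifs
      · exact (hg u).le
      · exact le_rfl
    · rw [if_pos (agr_self _ _)]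
      exact hg y
  zero := by
    intro y
    unfold MM
    have : ∀ u : Fin n → Bool, agr 0 u y := fun u i hi => absurd hi (Nat.not_lt_zero _)
    simp [this, hs]
  inv := by
    intro k i y hi
    unfold MM
    simp only [agr_fl_right hi]
  avg := by
    intro k y
    unfold MM
    have e1 : (2 : ℝ) ^ (n - k.val) = 2 * 2 ^ (n - (k.val + 1)) := by
      rw [← pow_succ']
      congr 1
      have := k.2
      omega
    have e2 : (∑ u, if agr (k.val + 1) u y then g u else 0)
        + (∑ u, if agr (k.val + 1) u (fl k y) then g u else 0)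
        = ∑ u, if agr k.val u y then g u else 0 := by
      rw [← sum_add_distrib]
      refine sum_congr rfl fun u _ => ?_
      have h1 := agr_succ k u y
      have h2 := agr_succ k u (fl k y)
      rw [agr_fl_right le_rfl, fl_same] at h2
      by_cases h3 : agr k.val u y
      · by_cases h4 : u k = y k
        · rw [if_pos (h1.2 ⟨h3, h4⟩), if_neg (fun h => ?_), if_pos h3, add_zero]
          have := (h2.1 h).2
          rw [h4] at this
          cases h5 : y k <;> simp [h5] at this
        · rw [if_neg (fun h => h4 (h1.1 h).2), if_pos (h2.2 ⟨h3, ?_⟩), if_pos h3, zero_add]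
          cases h5 : y k <;> cases h6 : u k <;> simp_all
      · rw [if_neg (fun h => h3 (h1.1 h).1), if_neg (fun h => h3 (h2.1 h).1), if_neg h3, add_zero]
    rw [e1, ← e2]
    field_simp

lemma MM_ratio {g : (Fin n → Bool) → ℝ} {κ : ℝ}
    (h : ∀ i y, g (fl i y) ≤ κ * g y) (k : ℕ) (i : Fin n) (y : Fin n → Bool) :
    MM g k (fl i y) ≤ κ * MM g k y := by
  unfold MM
  rw [← mul_div_assoc]
  refine div_le_div_of_nonneg_right ?_ (by positivity)
  rw [← sum_fl i (fun u => if agr k u (fl i y) then g u else 0), mul_sum]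
  refine sum_le_sum fun u _ => ?_
  simp only [agr_fl_fl]
  split_ifs
  · exact h i u
  · simp

/-- the increments -/
noncomputable def dd (M : ℕ → (Fin n → Bool) → ℝ) (k : Fin n) (y : Fin n → Bool) : ℝ :=
  M (k.val + 1) y / M k.val y - 1

section
variable {M : ℕ → (Fin n → Bool) → ℝ} (hM : MG n M)

include hM

lemma M_succ (k : Fin n) (y : Fin n → Bool) :
    M (k.val + 1) y = (1 + dd M k y) * M k.val y := by
  unfold dd
  have := (hM.pos k.val y).ne'
  field_simp
  ring

lemma dd_fl (k : Fin n) (y : Fin n → Bool) : dd M k (fl k y) = - dd M k y := by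
  unfold dd
  have h1 := hM.inv k.val k y le_rfl
  have h2 := hM.avg k y
  have h3 := (hM.pos k.val y).ne'
  rw [h1]
  field_simp
  linarith

lemma M_succ_fl (k : Fin n) (y : Fin n → Bool) :
    M (k.val + 1) (fl k y) = (1 - dd M k y) * M k.val y := by
  rw [M_succ hM, dd_fl hM, hM.inv k.val k y le_rfl]
  ring

lemma dd_inv (k j : Fin n) (y : Fin n → Bool) (h : k < j) : dd M k (fl j y) = dd M k y := by
  unfold dd
  have h' : k.val < j.val := h
  rw [hM.inv (k.val + 1) j y h', hM.inv k.val j y h'.le]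

lemma prod_dd (y : Fin n → Bool) : ∏ i, (1 + dd M i y) = M n y := by
  have key : ∀ k, k ≤ n → ∏ i ∈ univ.filter (fun i : Fin n => i.val < k), (1 + dd M i y) = M k y := by
    intro k
    induction k with
    | zero => intro _; simp [hM.zero]
    | succ k ih =>
      intro hk
      rw [filter_lt_succ k hk, prod_insert (notMem_filter_lt k hk), ih (Nat.le_of_succ_le hk)]
      exact (M_succ hM ⟨k, hk⟩ y).symm
  have h := key n le_rfl
  rwa [filter_lt_self] at h

lemma dd_abs {ρ : ℝ} (h1 : ρ < 1)
    (hr : ∀ (k : Fin n) y, M (k.val + 1) (fl k y) ≤ (1 + ρ) / (1 - ρ) * M (k.val + 1) y)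
    (k : Fin n) (y : Fin n → Bool) : |dd M k y| ≤ ρ := by
  have h2 : 0 < 1 - ρ := by linarith
  have a1 := hr k y
  have a2 := hr k (fl k y)
  rw [fl_fl, M_succ_fl hM, M_succ hM, ← mul_assoc] at a2
  rw [M_succ_fl hM, M_succ hM, ← mul_assoc] at a1
  have a1' := le_of_mul_le_mul_right a1 (hM.pos k.val y)
  have a2' := le_of_mul_le_mul_right a2 (hM.pos k.val y)
  rw [div_mul_eq_mul_div, le_div_iff₀ h2] at a1' a2'
  rw [abs_le]
  constructor <;> nlinarith

end

/-- the running quadratic variation -/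
noncomputable def bs (M : ℕ → (Fin n → Bool) → ℝ) (k : ℕ) (y : Fin n → Bool) : ℝ :=
  ∑ j ∈ univ.filter (fun i : Fin n => i.val < k), (dd M j y) ^ 2

/-- active positive part of the increment -/
noncomputable def pp (M : ℕ → (Fin n → Bool) → ℝ) (Λ : ℝ) (k : Fin n) (y : Fin n → Bool) : ℝ :=
  if bs M k.val y < Λ then max (dd M k y) 0 else 0

/-- active negative part of the increment -/
noncomputable def qq (M : ℕ → (Fin n → Bool) → ℝ) (Λ : ℝ) (k : Fin n) (y : Fin n → Bool) : ℝ :=
  if bs M k.val y < Λ then max (-dd M k y) 0 else 0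

lemma pp_nonneg (M : ℕ → (Fin n → Bool) → ℝ) (Λ : ℝ) (k : Fin n) (y : Fin n → Bool) :
    0 ≤ pp M Λ k y := by
  unfold pp; split_ifs
  · exact le_max_right _ _
  · exact le_rfl

lemma qq_nonneg (M : ℕ → (Fin n → Bool) → ℝ) (Λ : ℝ) (k : Fin n) (y : Fin n → Bool) :
    0 ≤ qq M Λ k y := by
  unfold qq; split_ifs
  · exact le_max_right _ _
  · exact le_rfl

/-- the three cases -/
lemma pq_cases (M : ℕ → (Fin n → Bool) → ℝ) (Λ : ℝ) (k : Fin n) (y : Fin n → Bool) :
    (pp M Λ k y = 0 ∧ qq M Λ k y = 0) ∨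
    (0 ≤ dd M k y ∧ pp M Λ k y = dd M k y ∧ qq M Λ k y = 0) ∨
    (dd M k y ≤ 0 ∧ pp M Λ k y = 0 ∧ qq M Λ k y = - dd M k y) := by
  unfold pp qq
  by_cases h : bs M k.val y < Λ
  · simp only [if_pos h]
    rcases le_total 0 (dd M k y) with h1 | h1
    · right; left
      exact ⟨h1, max_eq_left h1, max_eq_right (by linarith)⟩
    · right; right
      exact ⟨h1, max_eq_right h1, max_eq_left (by linarith)⟩
  · left
    simp only [if_neg h, and_self]

lemma pq_sum (M : ℕ → (Fin n → Bool) → ℝ) (Λ : ℝ) (k : Fin n) (y : Fin n → Bool) :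
    pp M Λ k y + qq M Λ k y = if bs M k.val y < Λ then |dd M k y| else 0 := by
  unfold pp qq
  by_cases h : bs M k.val y < Λ
  · simp only [if_pos h]
    rcases le_total 0 (dd M k y) with h1 | h1
    · rw [max_eq_left h1, max_eq_right (by linarith), abs_of_nonneg h1, add_zero]
    · rw [max_eq_right h1, max_eq_left (by linarith), abs_of_nonpos h1, zero_add]
  · simp only [if_neg h, add_zero]

section
variable {M : ℕ → (Fin n → Bool) → ℝ} (hM : MG n M)

include hM

lemma bs_inv (k : ℕ) (j : Fin n) (y : Fin n → Bool) (h : k ≤ j.val) :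
    bs M k (fl j y) = bs M k y := by
  unfold bs
  refine sum_congr rfl fun i hi => ?_
  simp only [mem_filter, mem_univ, true_and] at hi
  rw [dd_inv hM i j y (Fin.lt_def.2 (lt_of_lt_of_le hi h))]

lemma pp_fl (Λ : ℝ) (k : Fin n) (y : Fin n → Bool) : pp M Λ k (fl k y) = qq M Λ k y := by
  unfold pp qq
  rw [bs_inv hM k.val k y le_rfl, dd_fl hM]

lemma qq_fl (Λ : ℝ) (k : Fin n) (y : Fin n → Bool) : qq M Λ k (fl k y) = pp M Λ k y := by
  rw [← pp_fl hM, fl_fl]

lemma pp_inv (Λ : ℝ) (k j : Fin n) (y : Fin n → Bool) (h : k < j) :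
    pp M Λ k (fl j y) = pp M Λ k y := by
  unfold pp
  rw [bs_inv hM k.val j y (le_of_lt h), dd_inv hM k j y h]

lemma qq_inv (Λ : ℝ) (k j : Fin n) (y : Fin n → Bool) (h : k < j) :
    qq M Λ k (fl j y) = qq M Λ k y := by
  unfold qq
  rw [bs_inv hM k.val j y (le_of_lt h), dd_inv hM k j y h]

end

/-- upper bound of the active quadratic variation -/
lemma act_upper {M : ℕ → (Fin n → Bool) → ℝ} {Λ : ℝ} (hΛ : 0 ≤ Λ) (y : Fin n → Bool)
    (hd : ∀ k, |dd M k y| ≤ 1) : ∑ i, (pp M Λ i y + qq M Λ i y) ^ 2 ≤ Λ + 1 := by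
  have key : ∀ k, k ≤ n →
      ∑ i ∈ univ.filter (fun i : Fin n => i.val < k), (pp M Λ i y + qq M Λ i y) ^ 2 ≤ Λ + 1 ∧
      ∑ i ∈ univ.filter (fun i : Fin n => i.val < k), (pp M Λ i y + qq M Λ i y) ^ 2
        ≤ bs M k y := by
    intro k
    induction k with
    | zero =>
      intro _
      simp [bs]
      linarith
    | succ k ih =>
      intro hk
      obtain ⟨ih1, ih2⟩ := ih (Nat.le_of_succ_le hk)
      have e1 : bs M (k + 1) y = (dd M ⟨k, hk⟩ y) ^ 2 + bs M k y := by
        unfold bs
        rw [filter_lt_succ k hk, sum_insert (notMem_filter_lt k hk)]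
      rw [filter_lt_succ k hk, sum_insert (notMem_filter_lt k hk), e1, pq_sum]
      by_cases h : bs M k y < Λ
      · have h1 : (if bs M (⟨k, hk⟩ : Fin n).val y < Λ then |dd M ⟨k, hk⟩ y| else 0)
            = |dd M ⟨k, hk⟩ y| := if_pos h
        rw [h1, sq_abs]
        have h2 : (dd M ⟨k, hk⟩ y) ^ 2 ≤ 1 := by
          rw [← sq_abs]
          have := hd ⟨k, hk⟩
          have := abs_nonneg (dd M ⟨k, hk⟩ y)
          nlinarith
        constructor <;> linarith
      · have h1 : (if bs M (⟨k, hk⟩ : Fin n).val y < Λ then |dd M ⟨k, hk⟩ y| else 0)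
            = 0 := if_neg h
        rw [h1]
        have := sq_nonneg (dd M ⟨k, hk⟩ y)
        constructor
        · linarith
        · linarith
  have h := (key n le_rfl).1
  rwa [filter_lt_self] at h

/-- lower bound of the active quadratic variation -/
lemma act_lower {M : ℕ → (Fin n → Bool) → ℝ} {Λ : ℝ} (y : Fin n → Bool)
    (hb : Λ ≤ bs M n y) : Λ ≤ ∑ i, (pp M Λ i y + qq M Λ i y) ^ 2 := by
  have key : ∀ k, k ≤ n →
      Λ ≤ ∑ i ∈ univ.filter (fun i : Fin n => i.val < k), (pp M Λ i y + qq M Λ i y) ^ 2 ∨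
      bs M k y ≤ ∑ i ∈ univ.filter (fun i : Fin n => i.val < k),
        (pp M Λ i y + qq M Λ i y) ^ 2 := by
    intro k
    induction k with
    | zero =>
      intro _
      right
      simp [bs]
    | succ k ih =>
      intro hk
      have e1 : bs M (k + 1) y = (dd M ⟨k, hk⟩ y) ^ 2 + bs M k y := by
        unfold bs
        rw [filter_lt_succ k hk, sum_insert (notMem_filter_lt k hk)]
      rw [filter_lt_succ k hk, sum_insert (notMem_filter_lt k hk), e1]
      have h0 := sq_nonneg (pp M Λ ⟨k, hk⟩ y + qq M Λ ⟨k, hk⟩ y)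
      rcases ih (Nat.le_of_succ_le hk) with h1 | h1
      · left; linarith
      · by_cases h : bs M k y < Λ
        · right
          have h2 : (if bs M (⟨k, hk⟩ : Fin n).val y < Λ then |dd M ⟨k, hk⟩ y| else 0)
            = |dd M ⟨k, hk⟩ y| := if_pos h
          rw [pq_sum, h2, sq_abs]
          linarith
        · left
          push Not at h
          linarith
  have h := key n le_rfl
  rw [filter_lt_self] at h
  rcases h with h | h
  · exact h
  · exact hb.trans h

end Pool.Agent.Tal
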