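import Pool.Agent.Tal.Mart
import Pool.Agent.Tal.Kernel

/-!
# The estimates for the auxiliary processes
-/

set_option autoImplicit false

namespace Pool.Agent.Tal

open Finset

variable {n : ℕ}

lemma exp_le_quad {x : ℝ} (hx : |x| ≤ 1) : Real.exp x ≤ 1 + x + x ^ 2 := by
  have h := Real.abs_exp_sub_one_sub_id_le hx
  have := (abs_le.1 h).2
  linarith

lemma exp_neg_le_half {u : ℝ} (h0 : 0 ≤ u) (h1 : u ≤ 1) : Real.exp (-u) ≤ 1 - u / 2 := by
  rw [Real.exp_neg, inv_le_iff_one_le_mul₀ (Real.exp_pos _)]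
  have h2 := Real.add_one_le_exp u
  have h3 : 0 ≤ 1 - u / 2 := by linarith
  have h4 : (1 - u / 2) * (u + 1) ≤ (1 - u / 2) * Real.exp u := mul_le_mul_of_nonneg_left h2 h3
  nlinarith

/-- the martingale increments -/
noncomputable def uu (M : ℕ → (Fin n → Bool) → ℝ) (Λ : ℝ) (i : Fin n) (y : Fin n → Bool) : ℝ :=
  pp M Λ i y - qq M Λ i y * ((1 + (pp M Λ i y + qq M Λ i y)) / (1 - (pp M Λ i y + qq M Λ i y)))

section
variable {M : ℕ → (Fin n → Bool) → ℝ} (hM : MG n M) {ρ : ℝ} (h0 : 0 < ρ) (h1 : ρ < 1)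
  (hr : ∀ (k : Fin n) y, M (k.val + 1) (fl k y) ≤ (1 + ρ) / (1 - ρ) * M (k.val + 1) y)
  {Λ : ℝ}

include hM h1 hr

lemma cc_le (i : Fin n) (y : Fin n → Bool) (h0 : 0 < ρ) : pp M Λ i y + qq M Λ i y ≤ ρ := by
  rw [pq_sum]
  split_ifs
  · exact dd_abs hM h1 hr i y
  · exact h0.le

include h0

/-- exponential moments of the martingale -/
theorem expU {s : ℝ} (hs : |s| * kap ρ ≤ 1) :
    ∑ y, M n y * Real.exp (s * (∑ i, uu M Λ i y)
      - kap ρ ^ 2 * s ^ 2 * ∑ i, (pp M Λ i y + qq M Λ i y) ^ 2) ≤ 2 ^ n := by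
  have hκ := kap_ge h0 h1
  have h := SM hM (fun i y => Real.exp (s * uu M Λ i y
      - kap ρ ^ 2 * s ^ 2 * (pp M Λ i y + qq M Λ i y) ^ 2))
    (fun i y => (Real.exp_pos _).le) ?_ ?_
  · refine le_trans (le_of_eq ?_) h
    refine sum_congr rfl fun y _ => ?_
    rw [← Real.exp_sum, sum_sub_distrib, mul_sum, mul_sum]
  · intro i j y hij
    unfold uu
    rw [pp_inv hM Λ i j y hij, qq_inv hM Λ i j y hij]
  · intro i y
    have hd := dd_abs hM h1 hr i y
    have hm := hM.pos i.val y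
    rw [M_succ hM, M_succ_fl hM]
    have hc0 : 0 ≤ pp M Λ i y + qq M Λ i y := add_nonneg (pp_nonneg _ _ _ _) (qq_nonneg _ _ _ _)
    have hc1 : pp M Λ i y + qq M Λ i y ≤ ρ := cc_le hM h1 hr i y h0
    have hcc : pp M Λ i (fl i y) + qq M Λ i (fl i y) = pp M Λ i y + qq M Λ i y := by
      rw [pp_fl hM, qq_fl hM, add_comm]
    have huu : uu M Λ i (fl i y) = qq M Λ i y - pp M Λ i y *
        ((1 + (pp M Λ i y + qq M Λ i y)) / (1 - (pp M Λ i y + qq M Λ i y))) := by
      unfold uu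
      rw [hcc, pp_fl hM, qq_fl hM]
    have hu : uu M Λ i y = pp M Λ i y - qq M Λ i y *
        ((1 + (pp M Λ i y + qq M Λ i y)) / (1 - (pp M Λ i y + qq M Λ i y))) := rfl
    rw [hcc]
    have hp0 := pp_nonneg M Λ i y
    have hq0 := qq_nonneg M Λ i y
    -- mean zero and size
    have hmean : (1 + dd M i y) * uu M Λ i y + (1 - dd M i y) * uu M Λ i (fl i y) = 0 := by
      rw [hu, huu]
      rcases pq_cases M Λ i y with ⟨a, b⟩ | ⟨a, b, c⟩ | ⟨a, b, c⟩
      · rw [a, b]; ring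
      · rw [b, c]
        have : 1 - dd M i y ≠ 0 := by
          have := (abs_le.1 hd).2
          linarith
        simp only [add_zero, zero_mul, sub_zero]
        field_simp
        ring
      · rw [b, c]
        have : 1 + dd M i y ≠ 0 := by
          have := (abs_le.1 hd).1
          linarith
        simp only [zero_add, zero_mul, sub_zero, zero_sub, sub_neg_eq_add]
        field_simp
        ring
    set c : ℝ := pp M Λ i y + qq M Λ i y with hc
    have ha1 : (1 + c) / (1 - c) ≤ kap ρ := by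
      unfold kap
      rw [div_le_div_iff₀ (by linarith) (by linarith)]
      nlinarith
    have ha0 : 0 ≤ (1 + c) / (1 - c) := div_nonneg (by linarith) (by linarith)
    have hsz : ∀ a b : ℝ, 0 ≤ a → 0 ≤ b → a + b = c →
        |a - b * ((1 + c) / (1 - c))| ≤ kap ρ * c := by
      intro a b ha hb hab
      rw [abs_le]
      have t1 : b * ((1 + c) / (1 - c)) ≤ b * kap ρ := mul_le_mul_of_nonneg_left ha1 hb
      have t2 : 0 ≤ b * ((1 + c) / (1 - c)) := mul_nonneg hb ha0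
      constructor <;> nlinarith
    have hs1 : |uu M Λ i y| ≤ kap ρ * c := by
      rw [hu]; exact hsz _ _ hp0 hq0 rfl
    have hs2 : |uu M Λ i (fl i y)| ≤ kap ρ * c := by
      rw [huu]; exact hsz _ _ hq0 hp0 (by rw [add_comm])
    set u := uu M Λ i y
    set u' := uu M Λ i (fl i y)
    set d := dd M i y
    have hb1 : |s * u| ≤ 1 := by
      rw [abs_mul]
      calc |s| * |u| ≤ |s| * (kap ρ * c) := mul_le_mul_of_nonneg_left hs1 (abs_nonneg _)
        _ = |s| * kap ρ * c := by ring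
        _ ≤ 1 * c := mul_le_mul_of_nonneg_right hs hc0
        _ ≤ 1 := by linarith
    have hb2 : |s * u'| ≤ 1 := by
      rw [abs_mul]
      calc |s| * |u'| ≤ |s| * (kap ρ * c) := mul_le_mul_of_nonneg_left hs2 (abs_nonneg _)
        _ = |s| * kap ρ * c := by ring
        _ ≤ 1 * c := mul_le_mul_of_nonneg_right hs hc0
        _ ≤ 1 := by linarith
    have hu2 : u ^ 2 ≤ kap ρ ^ 2 * c ^ 2 := by
      rw [← mul_pow, ← sq_abs u]
      exact pow_le_pow_left₀ (abs_nonneg _) hs1 2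
    have hu2' : u' ^ 2 ≤ kap ρ ^ 2 * c ^ 2 := by
      rw [← mul_pow, ← sq_abs u']
      exact pow_le_pow_left₀ (abs_nonneg _) hs2 2
    have hd1 : 0 ≤ 1 + d := by
      have := (abs_le.1 hd).1
      linarith
    have hd2 : 0 ≤ 1 - d := by
      have := (abs_le.1 hd).2
      linarith
    have key : (1 + d) * Real.exp (s * u) + (1 - d) * Real.exp (s * u')
        ≤ 2 * Real.exp (kap ρ ^ 2 * s ^ 2 * c ^ 2) := by
      have t1 := mul_le_mul_of_nonneg_left (exp_le_quad hb1) hd1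
      have t2 := mul_le_mul_of_nonneg_left (exp_le_quad hb2) hd2
      have t3 := Real.add_one_le_exp (kap ρ ^ 2 * s ^ 2 * c ^ 2)
      have t4 : (1 + d) * (s * u) + (1 - d) * (s * u') = 0 := by
        have : (1 + d) * (s * u) + (1 - d) * (s * u') = s * ((1 + d) * u + (1 - d) * u') := by ring
        rw [this, hmean, mul_zero]
      have t5 : (s * u) ^ 2 ≤ kap ρ ^ 2 * s ^ 2 * c ^ 2 := by
        rw [mul_pow]
        nlinarith [mul_le_mul_of_nonneg_left hu2 (sq_nonneg s)]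
      have t6 : (s * u') ^ 2 ≤ kap ρ ^ 2 * s ^ 2 * c ^ 2 := by
        rw [mul_pow]
        nlinarith [mul_le_mul_of_nonneg_left hu2' (sq_nonneg s)]
      have t7 := mul_le_mul_of_nonneg_left t5 hd1
      have t8 := mul_le_mul_of_nonneg_left t6 hd2
      nlinarith
    have e1 : Real.exp (s * u - kap ρ ^ 2 * s ^ 2 * c ^ 2)
        = Real.exp (s * u) * Real.exp (-(kap ρ ^ 2 * s ^ 2 * c ^ 2)) := by
      rw [← Real.exp_add]; congr 1
    have e2 : Real.exp (s * u' - kap ρ ^ 2 * s ^ 2 * c ^ 2)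
        = Real.exp (s * u') * Real.exp (-(kap ρ ^ 2 * s ^ 2 * c ^ 2)) := by
      rw [← Real.exp_add]; congr 1
    have e3 : Real.exp (kap ρ ^ 2 * s ^ 2 * c ^ 2) * Real.exp (-(kap ρ ^ 2 * s ^ 2 * c ^ 2)) = 1 := by
      rw [← Real.exp_add]; simp
    rw [e1, e2]
    have hE := Real.exp_pos (-(kap ρ ^ 2 * s ^ 2 * c ^ 2))
    have key2 := mul_le_mul_of_nonneg_right key hE.le
    have key3 := mul_le_mul_of_nonneg_left key2 hm.le
    have e4 : M i.val y * (2 * Real.exp (kap ρ ^ 2 * s ^ 2 * c ^ 2) *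
        Real.exp (-(kap ρ ^ 2 * s ^ 2 * c ^ 2))) = 2 * M i.val y := by
      rw [mul_assoc 2, e3]; ring
    rw [e4] at key3
    linarith

/-- the large values with small quadratic variation -/
theorem expA : ∑ y, M n y * (M n y * Real.exp (-(bs M n y))) ≤ 2 ^ n := by
  have h := SM hM (fun i y => (1 + dd M i y) * Real.exp (-(dd M i y) ^ 2)) ?_ ?_ ?_
  · refine le_trans (le_of_eq ?_) h
    refine sum_congr rfl fun y _ => ?_
    rw [prod_mul_distrib, prod_dd hM, ← Real.exp_sum]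
    congr 3
    unfold bs
    rw [filter_lt_self, ← sum_neg_distrib]
  · intro i y
    have := (abs_le.1 (dd_abs hM h1 hr i y)).1
    exact mul_nonneg (by linarith) (Real.exp_pos _).le
  · intro i j y hij
    rw [dd_inv hM i j y hij]
  · intro i y
    rw [M_succ hM, M_succ_fl hM, dd_fl hM]
    have hm := hM.pos i.val y
    set d := dd M i y
    have e : (-d) ^ 2 = d ^ 2 := by ring
    rw [e]
    have t1 := Real.add_one_le_exp (d ^ 2)
    have e3 : Real.exp (d ^ 2) * Real.exp (-d ^ 2) = 1 := by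
      rw [← Real.exp_add]; simp
    have hE := Real.exp_pos (-d ^ 2)
    have t2 := mul_le_mul_of_nonneg_right t1 hE.le
    rw [e3] at t2
    have t3 := mul_le_mul_of_nonneg_left t2 hm.le
    nlinarith

/-- the paths with few negative increments -/
theorem expB : ∑ y, M n y * Real.exp (-(∑ i, (qq M Λ i y) ^ 2)
      + (1 - ρ) / 4 * ∑ i, (pp M Λ i y + qq M Λ i y) ^ 2) ≤ 2 ^ n := by
  have h := SM hM (fun i y => Real.exp (-(qq M Λ i y) ^ 2
      + (1 - ρ) / 4 * (pp M Λ i y + qq M Λ i y) ^ 2))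
    (fun i y => (Real.exp_pos _).le) ?_ ?_
  · refine le_trans (le_of_eq ?_) h
    refine sum_congr rfl fun y _ => ?_
    rw [← Real.exp_sum, sum_add_distrib, mul_sum, sum_neg_distrib]
  · intro i j y hij
    rw [pp_inv hM Λ i j y hij, qq_inv hM Λ i j y hij]
  · intro i y
    rw [M_succ hM, M_succ_fl hM, pp_fl hM, qq_fl hM]
    have hm := hM.pos i.val y
    have hd := dd_abs hM h1 hr i y
    have aux : ∀ d : ℝ, 0 ≤ d → d ≤ ρ →
        (1 + d) * Real.exp ((1 - ρ) / 4 * d ^ 2) + (1 - d) * Real.exp (-d ^ 2 + (1 - ρ) / 4 * d ^ 2)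
          ≤ 2 := by
      intro d hd0 hd1
      have e1 : Real.exp (-d ^ 2 + (1 - ρ) / 4 * d ^ 2)
          = Real.exp (-d ^ 2) * Real.exp ((1 - ρ) / 4 * d ^ 2) := by
        rw [← Real.exp_add]
      rw [e1]
      have hd2 : d ^ 2 ≤ 1 := by nlinarith
      have t1 := exp_neg_le_half (sq_nonneg d) hd2
      have t2 : (1 + d) + (1 - d) * Real.exp (-d ^ 2) ≤ 2 * (1 - (1 - ρ) / 4 * d ^ 2) := by
        have := mul_le_mul_of_nonneg_left t1 (by linarith : 0 ≤ 1 - d)
        nlinarith [mul_nonneg (sub_nonneg.2 hd1) (sq_nonneg d)]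
      have t3 := Real.add_one_le_exp (-((1 - ρ) / 4 * d ^ 2))
      have t4 : (1 + d) + (1 - d) * Real.exp (-d ^ 2) ≤ 2 * Real.exp (-((1 - ρ) / 4 * d ^ 2)) := by
        linarith
      have t5 := mul_le_mul_of_nonneg_right t4 (Real.exp_pos ((1 - ρ) / 4 * d ^ 2)).le
      have e2 : 2 * Real.exp (-((1 - ρ) / 4 * d ^ 2)) * Real.exp ((1 - ρ) / 4 * d ^ 2) = 2 := by
        rw [mul_assoc, ← Real.exp_add]; simp
      rw [e2] at t5
      linarith
    rcases pq_cases M Λ i y with ⟨a, b⟩ | ⟨a, b, c⟩ | ⟨a, b, c⟩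
    · rw [a, b]; simp; linarith
    · rw [b, c]
      have h2 := aux (dd M i y) a ((abs_le.1 hd).2)
      have h3 := mul_le_mul_of_nonneg_left h2 hm.le
      simp only [add_zero, zero_add]
      have e5 : (-(0 : ℝ) ^ 2 + (1 - ρ) / 4 * (dd M i y) ^ 2) = (1 - ρ) / 4 * (dd M i y) ^ 2 := by ring
      rw [e5]
      linarith
    · rw [b, c]
      have h2 := aux (-dd M i y) (by linarith) (by have := (abs_le.1 hd).1; linarith)
      have h3 := mul_le_mul_of_nonneg_left h2 hm.le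
      simp only [add_zero, zero_add]
      have e5 : (-(0 : ℝ) ^ 2 + (1 - ρ) / 4 * (-dd M i y) ^ 2) = (1 - ρ) / 4 * (-dd M i y) ^ 2 := by ring
      rw [e5]
      linarith

end

end Pool.Agent.Tal
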